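import Pool.Agent.helper37.NL.Shp
import Pool.Agent.helper37.NP.HTb
import Pool.Agent.helper37.NP.ZDa

/-!
author: helper41
RO-08 (Dic).  Dehn invariant zero for edges in the plane spanned by two integer vectors.

PROOF.  `V = span (iv (s i))`.  `right_inverse s hs` gives a rational matrix `M` with
`∑ e, s i e * M e j = δ_ij`.
(a) If `w : Fin 6 → ℤ` and `iv w ∈ V`, `iv w = ∑ c i • iv (s i)`, then `c j = ∑ e, w e * M e j` is
rational, so `dotp (iv w) t = π * (∑ c j r j)` is a rational multiple of `π`.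
(b) If `a / b` is rational, `a = (x/y) b` with natural numbers `x, y > 0` coprime (`a, b > 0`):
`iv (x u + y v) = (y/b) • l ∈ V`, so by (a) `x dotp (iv u) t + y dotp (iv v) t = π q`.
(c) If `a / b` is irrational: `iv u, iv v ∈ V`: the projection `P w = w - ∑ j (∑ e, w e * M e j) • iv (s j)`
is a linear map with rational matrix whose kernel contains `V` and with `P w = 0 → w ∈ V`.
`0 = P l = a P (iv u) + b P (iv v)` with rational coordinates of `P (iv u)`, `P (iv v)`; as `a/b` is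
irrational both are zero.  Then (a) for `u` and `v`.
-/

namespace Pool.Agent.helper37.RO

open Real Pool.Agent.helper37.NP Pool.Agent.helper37.NL Pool.Agent.Helper93.Tet

private theorem Dic_dotp (l t : V6) : dotp l t = ∑ e, l e * t e := by
  rw [Fin.sum_univ_six]
  rfl

/-- the coefficients are recovered by the right inverse -/
private theorem Dic_coef {k : ℕ} {s : Fin k → Fin 6 → ℤ} {M : Fin 6 → Fin k → ℚ}
    (hM : ∀ i j, ∑ e, (s i e : ℚ) * M e j = if i = j then 1 else 0) {l : V6} {c : Fin k → ℝ}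
    (h : ∑ i, c i • iv (s i) = l) (j : Fin k) : c j = ∑ e, l e * (M e j : ℝ) := by
  have h1 : ∀ e, l e = ∑ i, c i * (s i e : ℝ) := by
    intro e
    rw [← h, Finset.sum_apply]
    rfl
  have h2 : ∀ i, ∑ e, (s i e : ℝ) * (M e j : ℝ) = if i = j then 1 else 0 := by
    intro i
    have := congrArg (Rat.cast : ℚ → ℝ) (hM i j)
    push_cast at this
    rw [this]
    split_ifs <;> simp
  calc c j = ∑ i, c i * (if i = j then 1 else 0) := by simp
    _ = ∑ i, c i * ∑ e, (s i e : ℝ) * (M e j : ℝ) := by simp only [h2]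
    _ = ∑ i, ∑ e, c i * ((s i e : ℝ) * (M e j : ℝ)) := by simp only [Finset.mul_sum]
    _ = ∑ e, ∑ i, c i * ((s i e : ℝ) * (M e j : ℝ)) := Finset.sum_comm
    _ = ∑ e, l e * (M e j : ℝ) := by
        refine Finset.sum_congr rfl fun e _ => ?_
        rw [h1 e, Finset.sum_mul]
        refine Finset.sum_congr rfl fun i _ => ?_
        ring

private theorem Dic_rat {k : ℕ} {s : Fin k → Fin 6 → ℤ} {r : Fin k → ℚ} {M : Fin 6 → Fin k → ℚ}
    (hM : ∀ i j, ∑ e, (s i e : ℚ) * M e j = if i = j then 1 else 0) {t : V6}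
    (hr : ∀ i, dotp (iv (s i)) t = π * (r i : ℝ)) {w : Fin 6 → ℤ}
    (hw : iv w ∈ Submodule.span ℝ (Set.range fun i => iv (s i))) :
    ∃ q : ℚ, dotp (iv w) t = π * (q : ℝ) := by
  obtain ⟨c, hc⟩ := (Submodule.mem_span_range_iff_exists_fun ℝ).1 hw
  refine ⟨∑ i, (∑ e, (w e : ℚ) * M e i) * r i, ?_⟩
  have h1 : ∀ e, iv w e = ∑ i, c i * iv (s i) e := by
    intro e
    rw [← hc, Finset.sum_apply]
    rfl
  have h2 : dotp (iv w) t = ∑ i, c i * dotp (iv (s i)) t := by
    rw [Dic_dotp]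
    simp only [Dic_dotp, h1, Finset.sum_mul, Finset.mul_sum]
    rw [Finset.sum_comm]
    refine Finset.sum_congr rfl fun i _ => Finset.sum_congr rfl fun e _ => ?_
    ring
  rw [h2]
  push_cast
  rw [Finset.mul_sum]
  refine Finset.sum_congr rfl fun i _ => ?_
  rw [hr, Dic_coef hM hc i]
  have h3 : ∀ e, iv w e = (w e : ℝ) := fun e => rfl
  simp only [h3]
  ring

/-- rational independence of `a`, `b` -/
private theorem Dic_irr {a b : ℝ} (hb : 0 < b) (h : ¬ ∃ Q : ℚ, a / b = (Q : ℝ)) {p q : ℚ}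
    (he : a * (p : ℝ) + b * (q : ℝ) = 0) : p = 0 ∧ q = 0 := by
  have hp : p = 0 := by
    by_contra hp
    have hp' : (p : ℝ) ≠ 0 := by exact_mod_cast hp
    refine h ⟨-q / p, ?_⟩
    push_cast
    field_simp
    linarith
  refine ⟨hp, ?_⟩
  rw [hp, Rat.cast_zero, mul_zero, zero_add] at he
  rcases mul_eq_zero.1 he with h1 | h1
  · exact absurd h1 hb.ne'
  · exact_mod_cast h1

private theorem Dic_mem {k : ℕ} {s : Fin k → Fin 6 → ℤ} {w : Fin 6 → ℤ} {m : Fin k → ℚ}
    (h : ∀ e, (w e : ℚ) - ∑ j, m j * (s j e : ℚ) = 0) :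
    iv w ∈ Submodule.span ℝ (Set.range fun i => iv (s i)) := by
  rw [Submodule.mem_span_range_iff_exists_fun]
  refine ⟨fun j => (m j : ℝ), ?_⟩
  funext e
  rw [Finset.sum_apply]
  have h1 := congrArg (Rat.cast : ℚ → ℝ) (h e)
  push_cast at h1
  have h2 : iv w e = (w e : ℝ) := rfl
  rw [h2]
  have h3 : ∑ j, ((m j : ℝ) • iv (s j)) e = ∑ j, (m j : ℝ) * (s j e : ℝ) := rfl
  rw [h3]
  linarith

theorem rat_or {k : ℕ} (s : Fin k → Fin 6 → ℤ) (r : Fin k → ℚ)
    (hs : LinearIndependent ℝ (fun i => iv (s i))) {t : V6}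
    (hr : ∀ i, dotp (iv (s i)) t = π * (r i : ℝ)) {u v : Fin 6 → ℤ} {a b : ℝ} (ha : 0 < a)
    (hb : 0 < b) (hsp : a • iv u + b • iv v ∈ Submodule.span ℝ (Set.range fun i => iv (s i))) :
    (∃ q1 q2 : ℚ, dotp (iv u) t = π * (q1 : ℝ) ∧ dotp (iv v) t = π * (q2 : ℝ)) ∨
    ∃ (x y : ℕ) (c : ℝ) (q : ℚ), 0 < x ∧ 0 < y ∧ Nat.Coprime x y ∧ 0 < c ∧ a = c * x ∧ b = c * y ∧
      (x : ℝ) * dotp (iv u) t + (y : ℝ) * dotp (iv v) t = π * (q : ℝ) := by
  obtain ⟨M, hM⟩ := right_inverse s hs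
  by_cases hab : ∃ Q : ℚ, a / b = (Q : ℝ)
  · right
    obtain ⟨Q, hQ⟩ := hab
    have hQ0 : (0 : ℝ) < (Q : ℝ) := by
      rw [← hQ]
      positivity
    have hQ1 : 0 < Q := by exact_mod_cast hQ0
    have hnum : 0 < Q.num := Rat.num_pos.2 hQ1
    have hx : 0 < Q.num.natAbs := Int.natAbs_pos.2 hnum.ne'
    have hy : 0 < Q.den := Q.den_pos
    have hyr : (0 : ℝ) < (Q.den : ℝ) := by exact_mod_cast hy
    have hxr : ((Q.num.natAbs : ℕ) : ℝ) = (Q.num : ℝ) := by
      have h1 : ((Q.num.natAbs : ℕ) : ℤ) = Q.num := Int.natAbs_of_nonneg hnum.le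
      calc ((Q.num.natAbs : ℕ) : ℝ) = (((Q.num.natAbs : ℕ) : ℤ) : ℝ) := (Int.cast_natCast _).symm
        _ = (Q.num : ℝ) := by rw [h1]
    have hQd : (Q : ℝ) = (Q.num : ℝ) / (Q.den : ℝ) := by
      exact_mod_cast (Rat.cast_def Q : (Q : ℝ) = (Q.num : ℝ) / (Q.den : ℝ))
    have hc : 0 < b / (Q.den : ℝ) := by positivity
    have ha1 : a = b / (Q.den : ℝ) * (Q.num.natAbs : ℕ) := by
      rw [hxr]
      have h1 : a = (Q : ℝ) * b := by
        rw [← hQ]
        field_simp
      rw [h1, hQd]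
      ring
    have hb1 : b = b / (Q.den : ℝ) * (Q.den : ℕ) := by
      field_simp
    set x : ℕ := Q.num.natAbs with hxd
    set y : ℕ := Q.den with hyd
    set c : ℝ := b / (y : ℝ) with hcd
    have hmem : iv (fun e => (x : ℤ) * u e + (y : ℤ) * v e) ∈
        Submodule.span ℝ (Set.range fun i => iv (s i)) := by
      have h1 : iv (fun e => (x : ℤ) * u e + (y : ℤ) * v e) = c⁻¹ • (a • iv u + b • iv v) := by
        funext e
        have e1 : iv (fun e => (x : ℤ) * u e + (y : ℤ) * v e) e = x * u e + y * v e := by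
          simp only [iv]
          push_cast
          ring
        have e2 : (c⁻¹ • (a • iv u + b • iv v)) e = c⁻¹ * (a * u e + b * v e) := rfl
        rw [e1, e2]
        rw [ha1, hb1]
        field_simp
      rw [h1]
      exact Submodule.smul_mem _ _ hsp
    obtain ⟨q, hq⟩ := Dic_rat hM hr hmem
    refine ⟨x, y, c, q, hx, hy, Q.reduced, hc, ha1, hb1, ?_⟩
    rw [← hq]
    simp only [dotp, iv]
    push_cast
    ring
  · left
    obtain ⟨c, hc⟩ := (Submodule.mem_span_range_iff_exists_fun ℝ).1 hsp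
    have hcoef := fun j => Dic_coef hM hc j
    have hzero : ∀ e, a * (((u e : ℚ) - ∑ j, (∑ f, (u f : ℚ) * M f j) * (s j e : ℚ) : ℚ) : ℝ) +
        b * (((v e : ℚ) - ∑ j, (∑ f, (v f : ℚ) * M f j) * (s j e : ℚ) : ℚ) : ℝ) = 0 := by
      intro e
      have h1 : (∑ i, c i • iv (s i)) e = (a • iv u + b • iv v) e := by rw [hc]
      rw [Finset.sum_apply] at h1
      have h2 : ∑ i, (c i • iv (s i)) e = ∑ i, c i * (s i e : ℝ) := rfl
      have h3 : (a • iv u + b • iv v) e = a * (u e : ℝ) + b * (v e : ℝ) := rfl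
      have h4 : ∀ j, c j = a * (∑ f, (u f : ℝ) * (M f j : ℝ)) +
          b * (∑ f, (v f : ℝ) * (M f j : ℝ)) := by
        intro j
        rw [hcoef j, Finset.mul_sum, Finset.mul_sum, ← Finset.sum_add_distrib]
        refine Finset.sum_congr rfl fun f _ => ?_
        have : (a • iv u + b • iv v) f = a * (u f : ℝ) + b * (v f : ℝ) := rfl
        rw [this]
        ring
      rw [h2, h3] at h1
      push_cast
      have h5 : ∑ i, c i * (s i e : ℝ) =
          a * ∑ j, (∑ f, (u f : ℝ) * (M f j : ℝ)) * (s j e : ℝ) +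
          b * ∑ j, (∑ f, (v f : ℝ) * (M f j : ℝ)) * (s j e : ℝ) := by
        rw [Finset.mul_sum, Finset.mul_sum, ← Finset.sum_add_distrib]
        refine Finset.sum_congr rfl fun j _ => ?_
        rw [h4 j]
        ring
      rw [h5] at h1
      linarith
    have hu : iv u ∈ Submodule.span ℝ (Set.range fun i => iv (s i)) :=
      Dic_mem (m := fun j => ∑ f, (u f : ℚ) * M f j) fun e => (Dic_irr hb hab (hzero e)).1
    have hv : iv v ∈ Submodule.span ℝ (Set.range fun i => iv (s i)) :=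
      Dic_mem (m := fun j => ∑ f, (v f : ℚ) * M f j) fun e => (Dic_irr hb hab (hzero e)).2
    obtain ⟨q1, hq1⟩ := Dic_rat hM hr hu
    obtain ⟨q2, hq2⟩ := Dic_rat hM hr hv
    exact ⟨q1, q2, hq1, hq2⟩

end Pool.Agent.helper37.RO
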