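import Pool.Agent.helper37.NL.Shp
import Pool.Agent.helper37.NP.Perm

/-!
RO-07 (Geq).  Angles of the tetragonal disphenoid `![a, b, b, b, b, a]`.

PROOF.  `l ∈ T` gives `a, b > 0` and `W l = 2 a⁴ (2b² - a²) > 0`, so
`a² < 2b²`.
Symmetry: `sab l = l`, `scd l = l`, and the exchange of `ab` and `cd` (a product of transpositions, or
directly from the formulas for `cs l`): `ang l 5 = ang l 0`, `ang l 2 = ang l 3 = ang l 4 = ang l 1`.
`cos_ang`, `sin_ang` (`NP/Bas`): `cos α = (4b² - 3a²)/(4b² - a²)`, `sin α = 2a √(4b² - 2a²)/(4b² - a²)`,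
`cos β = a²/(4b² - a²)`, `sin β = 2b √(4b² - 2a²)/(4b² - a²)`.  With `δ = √(4b² - 2a²) i`,
`δ² = 2a² - 4b²`: `(cos α + i sin α)(δ + a) = δ - a`, `(cos β + i sin β)(2b - δ) = 2b + δ`.
-/

namespace Pool.Agent.helper37.RO

open Real Pool.Agent.helper37.NP Pool.Agent.helper37.NL Pool.Agent.Helper93.Tet

private theorem expI_eq (t x y u v : ℝ) (h1 : Real.cos t * x - Real.sin t * y = u)
    (h2 : Real.cos t * y + Real.sin t * x = v) :
    Complex.exp ((t : ℂ) * Complex.I) * ((x : ℂ) + (y : ℂ) * Complex.I)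
      = (u : ℂ) + (v : ℂ) * Complex.I := by
  rw [Complex.exp_mul_I, ← Complex.ofReal_cos, ← Complex.ofReal_sin]
  apply Complex.ext
  · simp only [Complex.add_re, Complex.mul_re, Complex.ofReal_re, Complex.ofReal_im,
      Complex.I_re, Complex.I_im, Complex.add_im, Complex.mul_im]
    rw [← h1]
    ring
  · simp only [Complex.add_re, Complex.mul_re, Complex.ofReal_re, Complex.ofReal_im,
      Complex.I_re, Complex.I_im, Complex.add_im, Complex.mul_im]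
    rw [← h2]
    ring

theorem dis_angles {a b : ℝ} (h : (![a, b, b, b, b, a] : V6) ∈ T) :
    0 < a ∧ 0 < b ∧ a ^ 2 < 2 * b ^ 2 ∧
    ang ![a, b, b, b, b, a] 5 = ang ![a, b, b, b, b, a] 0 ∧
    ang ![a, b, b, b, b, a] 2 = ang ![a, b, b, b, b, a] 1 ∧
    ang ![a, b, b, b, b, a] 3 = ang ![a, b, b, b, b, a] 1 ∧
    ang ![a, b, b, b, b, a] 4 = ang ![a, b, b, b, b, a] 1 ∧
    cos (ang ![a, b, b, b, b, a] 0) = (4 * b ^ 2 - 3 * a ^ 2) / (4 * b ^ 2 - a ^ 2) ∧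
    cos (ang ![a, b, b, b, b, a] 0) + 2 * cos (ang ![a, b, b, b, b, a] 1) = 1 ∧
    Complex.exp ((ang ![a, b, b, b, b, a] 0 : ℂ) * Complex.I)
        * ((a : ℂ) + √(4 * b ^ 2 - 2 * a ^ 2) * Complex.I)
      = -(a : ℂ) + √(4 * b ^ 2 - 2 * a ^ 2) * Complex.I ∧
    Complex.exp ((ang ![a, b, b, b, b, a] 1 : ℂ) * Complex.I)
        * (2 * (b : ℂ) - √(4 * b ^ 2 - 2 * a ^ 2) * Complex.I)
      = 2 * (b : ℂ) + √(4 * b ^ 2 - 2 * a ^ 2) * Complex.I := by
  set l : V6 := ![a, b, b, b, b, a] with hl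
  have ha : 0 < a := T_pos h 0
  have hb : 0 < b := T_pos h 1
  have hW : W l = a ^ 4 * (4 * b ^ 2 - 2 * a ^ 2) := by
    change Wsq (a ^ 2) (b ^ 2) (b ^ 2) (b ^ 2) (b ^ 2) (a ^ 2) = _
    unfold Wsq
    ring
  have hW0 : 0 < W l := h.2
  have hab : 0 < 4 * b ^ 2 - 2 * a ^ 2 := by
    rw [hW] at hW0
    exact pos_of_mul_pos_right hW0 (by positivity)
  have hD : 0 < 4 * b ^ 2 - a ^ 2 := by
    have := sq_nonneg a
    linarith
  have hsW : √(W l) = a ^ 2 * √(4 * b ^ 2 - 2 * a ^ 2) := by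
    rw [hW, Real.sqrt_mul (by positivity), show a ^ 4 = (a ^ 2) ^ 2 by ring,
      Real.sqrt_sq (by positivity)]
  have hH : 0 < a ^ 2 * (4 * b ^ 2 - a ^ 2) := mul_pos (by positivity) hD
  have e1 : NP.ha l 0 = a ^ 2 * (4 * b ^ 2 - a ^ 2) := by
    change He a b b = _
    unfold He
    ring
  have e2 : NP.hb l 0 = a ^ 2 * (4 * b ^ 2 - a ^ 2) := by
    change He a b b = _
    unfold He
    ring
  have e3 : NP.ha l 1 = a ^ 2 * (4 * b ^ 2 - a ^ 2) := by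
    change He b a b = _
    unfold He
    ring
  have e4 : NP.hb l 1 = a ^ 2 * (4 * b ^ 2 - a ^ 2) := by
    change He b b a = _
    unfold He
    ring
  have n0 : nu l 0 = a ^ 2 * (4 * b ^ 2 - 3 * a ^ 2) := by
    change Nu a b b b b a = _
    unfold Nu
    ring
  have n1 : nu l 1 = a ^ 2 * a ^ 2 := by
    change Nu b a b b a b = _
    unfold Nu
    ring
  have c0 : Real.cos (ang l 0) = (4 * b ^ 2 - 3 * a ^ 2) / (4 * b ^ 2 - a ^ 2) := by
    rw [cos_ang h, e1, e2, Real.mul_self_sqrt hH.le, n0]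
    exact mul_div_mul_left _ _ (by positivity)
  have c1 : Real.cos (ang l 1) = a ^ 2 / (4 * b ^ 2 - a ^ 2) := by
    rw [cos_ang h, e3, e4, Real.mul_self_sqrt hH.le, n1]
    exact mul_div_mul_left _ _ (by positivity)
  have s0 : Real.sin (ang l 0) = 2 * a * √(4 * b ^ 2 - 2 * a ^ 2) / (4 * b ^ 2 - a ^ 2) := by
    rw [sin_ang h, e1, e2, Real.mul_self_sqrt hH.le, hsW]
    change 2 * a * (a ^ 2 * √(4 * b ^ 2 - 2 * a ^ 2)) / _ = _
    rw [show 2 * a * (a ^ 2 * √(4 * b ^ 2 - 2 * a ^ 2)) =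
      a ^ 2 * (2 * a * √(4 * b ^ 2 - 2 * a ^ 2)) by ring]
    exact mul_div_mul_left _ _ (by positivity)
  have s1 : Real.sin (ang l 1) = 2 * b * √(4 * b ^ 2 - 2 * a ^ 2) / (4 * b ^ 2 - a ^ 2) := by
    rw [sin_ang h, e3, e4, Real.mul_self_sqrt hH.le, hsW]
    change 2 * b * (a ^ 2 * √(4 * b ^ 2 - 2 * a ^ 2)) / _ = _
    rw [show 2 * b * (a ^ 2 * √(4 * b ^ 2 - 2 * a ^ 2)) =
      a ^ 2 * (2 * b * √(4 * b ^ 2 - 2 * a ^ 2)) by ring]
    exact mul_div_mul_left _ _ (by positivity)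
  have hsq : √(4 * b ^ 2 - 2 * a ^ 2) * √(4 * b ^ 2 - 2 * a ^ 2) = 4 * b ^ 2 - 2 * a ^ 2 :=
    Real.mul_self_sqrt hab.le
  refine ⟨ha, hb, by linarith, rfl, rfl, rfl, rfl, c0, ?_, ?_, ?_⟩
  · rw [c0, c1]
    field_simp
    ring
  · have := expI_eq (ang l 0) a √(4 * b ^ 2 - 2 * a ^ 2) (-a) √(4 * b ^ 2 - 2 * a ^ 2)
      (by
        rw [c0, s0, div_mul_eq_mul_div, div_mul_eq_mul_div, ← sub_div, div_eq_iff hD.ne']
        linear_combination (-2 * a) * hsq)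
      (by
        rw [c0, s0, div_mul_eq_mul_div, div_mul_eq_mul_div, ← add_div, div_eq_iff hD.ne']
        ring)
    rw [this]
    push_cast
    ring
  · have := expI_eq (ang l 1) (2 * b) (-√(4 * b ^ 2 - 2 * a ^ 2)) (2 * b)
      √(4 * b ^ 2 - 2 * a ^ 2)
      (by
        rw [c1, s1, div_mul_eq_mul_div, div_mul_eq_mul_div, ← sub_div, div_eq_iff hD.ne']
        linear_combination (2 * b) * hsq)
      (by
        rw [c1, s1, div_mul_eq_mul_div, div_mul_eq_mul_div, ← add_div, div_eq_iff hD.ne']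
        ring)
    push_cast at this
    rw [neg_mul, ← sub_eq_add_neg] at this
    exact this

end Pool.Agent.helper37.RO
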