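import Mathlib

/-!
RO-03 (Par).  author: helper1.  Both `2b - a` and `2b + a` are powers of two: parametrisation.

PROOF.  `a < 2b`.  A natural number all of whose prime factors are `2` is a power of two
(`Nat.eq_prime_pow_of_unique_prime_dvd` or `Nat.exists_eq_two_pow_mul_odd`): `2b - a = 2^j`,
`2b + a = 2^n`, `j < n`, `4b = 2^j + 2^n`, `2a = 2^n - 2^j`.
`j = 0`: `2b - a = 1`, `a` odd, `2b + a` is odd, so `2^n = 1`, `n = 0`, contradiction.
So `j ≥ 1`, `a` is even, `b` is odd.  `j = 1`: `4b = 2 + 2^n` with `n ≥ 2` is `2` mod `4`, contradiction.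
`j ≥ 3`: `b = 2^(j-2) + 2^(n-2)` is even, contradiction.  `j = 2`: `b = 1 + 2^(n-2)` odd, `n ≥ 3`,
`m = n - 2 ≥ 1`: `b = 2^m + 1`, `a = 2b - 4 = 2 (2^m - 1)`.
-/

namespace Pool.Agent.helper37.RO

/-- a positive natural number all of whose prime factors are `2` is a power of two -/
private theorem pow_of {n : ℕ} (hn : n ≠ 0) (h : ∀ p : ℕ, p.Prime → p ∣ n → p = 2) :
    ∃ j, n = 2 ^ j :=
  ⟨_, Nat.eq_prime_pow_of_unique_prime_dvd hn (fun {p} hp hd => h p hp hd)⟩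

theorem par {a b : ℕ} (ha : 0 < a) (hab : Nat.Coprime a b) (hlt : a < 2 * b)
    (h1 : ∀ p : ℕ, p.Prime → p ∣ 2 * b - a → p = 2)
    (h2 : ∀ p : ℕ, p.Prime → p ∣ 2 * b + a → p = 2) :
    ∃ m : ℕ, 1 ≤ m ∧ a = 2 * (2 ^ m - 1) ∧ b = 2 ^ m + 1 := by
  obtain ⟨j, hj⟩ := pow_of (by omega) h1
  obtain ⟨n, hn⟩ := pow_of (by omega) h2
  have hjn : j < n := by
    by_contra hc
    have := Nat.pow_le_pow_right (n := 2) (by norm_num) (not_lt.1 hc)
    omega
  have hne : ¬ (2 ∣ a ∧ 2 ∣ b) := by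
    rintro ⟨h3, h4⟩
    have := Nat.dvd_gcd h3 h4
    rw [hab] at this
    omega
  match j, hj with
  | 0, hj =>
    exfalso
    obtain ⟨k, rfl⟩ : ∃ k, n = k + 1 := ⟨n - 1, by omega⟩
    rw [pow_succ] at hn
    simp at hj
    omega
  | 1, hj =>
    exfalso
    obtain ⟨k, rfl⟩ : ∃ k, n = k + 2 := ⟨n - 2, by omega⟩
    rw [pow_add] at hn
    simp at hj
    omega
  | 2, hj =>
    obtain ⟨k, rfl⟩ : ∃ k, n = k + 3 := ⟨n - 3, by omega⟩
    have h5 : 2 ^ (k + 3) = 4 * 2 ^ (k + 1) := by ring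
    have h6 : 0 < 2 ^ (k + 1) := by positivity
    rw [h5] at hn
    refine ⟨k + 1, by omega, ?_, ?_⟩
    · omega
    · omega
  | (i + 3), hj =>
    exfalso
    obtain ⟨k, rfl⟩ : ∃ k, n = k + 3 := ⟨n - 3, by omega⟩
    rw [pow_add] at hj hn
    apply hne
    constructor
    · omega
    · omega

end Pool.Agent.helper37.RO
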