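import Pool.Agent.helper37.RO.Trf
import Pool.Agent.helper37.RO.Par

/-!
RO-05 (Ntq).  Number theory for the tetragonal disphenoids.  `D = 2a² - 4b² < 0`, `A = 2 a N`,
`B = 4 b N`, (E) `(-a + δ)^A (2b + δ)^B = (-a - δ)^A (2b - δ)^B`.  By `transfer`
(`x1 = -a, y1 = 1, x2 = 2b, y2 = 1`) the same identity holds for every square root `ρ` of `D` in every ring.

author of the proof: helper90

(1) `a < 2b`.
(2) No odd prime `p` divides `2b + a`: `p ∤ a` (coprime, `p` odd).  In `ZMod p` take `ρ = a`: `a² = D` because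
`4b² = a²`.  The left side of (E) is `0`, the right side `(-2a)^A (2b - a)^B = (-2a)^A (-2a)^B ≠ 0`.
(3) No odd prime `p` divides `2b - a`: `p ∤ a`.  In `ℤ_[p]` take `ρ ≡ a` (`sqrt_odd`, `a² - D = 4b² - a²`).
With `m = v (2b - a) ≥ 1`: `(ρ - a)(ρ + a) = D - a² = -(2b - a)(2b + a)`, `ρ + a ≡ 2a` and
`2b + a ≡ 2a` are units: `v (ρ - a) = m`.  `(2b - ρ)(2b + ρ) = 4b² - D = 2 (2b - a)(2b + a)`,
`2b + ρ ≡ 2a` unit: `v (2b - ρ) = m`.  (E): `A m = B m`, `a = 2b`, contradiction.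
(4) `par`: `a = 2(2^m - 1)`, `b = 2^m + 1`, `m ≥ 1`; `a² < 2b²` is `(2^m)² + 1 < 6 · 2^m`, so `m ≤ 2`:
`(a, b) = (2, 3), (6, 5)`, in both cases `D = -28`.
(5) `ε ∈ ℤ_[2]` with `ε² = -7` (`sqrt_two`), `ρ = 2ε`; `u = ε - a'`, `u' = ε + a'` with `a' = a/2` odd,
`w = b + ε`, `w' = b - ε`; `‖u' - u‖ = 1/2`, `‖u u'‖ ≤ 1/8`, so one of `u, u'` has norm `1/2`, the other norm
`≤ 1/4`; `‖w - u‖, ‖w' + u'‖ ≤ 1/4`, so the same holds for `w, w'`: (E) is impossible (`key2`).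
-/

namespace Pool.Agent.helper37.RO

private theorem norm_add_of_lt {p : ℕ} [Fact p.Prime] {x y : ℤ_[p]} (h : ‖y‖ < ‖x‖) : ‖x + y‖ = ‖x‖ := by
  rw [PadicInt.norm_add_eq_max_of_ne h.ne', max_eq_left h.le]

private theorem key2_aux (u u' w w' : ℤ_[2]) (hu : ‖u‖ = 1 / 2) (hu' : ‖u'‖ ≤ 1 / 4)
    (hw : ‖w - u‖ ≤ 1 / 4) (hw' : ‖w' + u'‖ ≤ 1 / 4) : ‖w‖ = 1 / 2 ∧ ‖w'‖ ≤ 1 / 4 := by
  constructor
  · have h1 : ‖u + (w - u)‖ = ‖u‖ := norm_add_of_lt (by rw [hu]; linarith)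
    rwa [add_sub_cancel, hu] at h1
  · have h1 : ‖(w' + u') + (-u')‖ ≤ max ‖w' + u'‖ ‖-u'‖ := PadicInt.nonarchimedean _ _
    rw [norm_neg, add_neg_cancel_right] at h1
    exact h1.trans (max_le hw' hu')

private theorem key2_num (x y X Y : ℝ) (hx : x = 1 / 2) (hy : y ≤ 1 / 4) (hy0 : 0 ≤ y) (hX : X = 1 / 2)
    (hY : Y ≤ 1 / 4) (hY0 : 0 ≤ Y) (A B : ℕ) (hA : 0 < A) (h : x ^ A * X ^ B = y ^ A * Y ^ B) : False := by
  have h1 : y ^ A < x ^ A := pow_lt_pow_left₀ (by linarith) hy0 hA.ne'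
  have h2 : Y ^ B ≤ X ^ B := pow_le_pow_left₀ hY0 (by linarith) B
  have h3 : 0 < X ^ B := by
    rw [hX]
    positivity
  have h4 : y ^ A * Y ^ B ≤ y ^ A * X ^ B := mul_le_mul_of_nonneg_left h2 (pow_nonneg hy0 A)
  have h5 : y ^ A * X ^ B < x ^ A * X ^ B := mul_lt_mul_of_pos_right h1 h3
  linarith

private theorem key2 (u u' w w' : ℤ_[2]) (hd : ‖u' - u‖ = 1 / 2) (hp : ‖u * u'‖ ≤ 1 / 8)
    (hw : ‖w - u‖ ≤ 1 / 4) (hw' : ‖w' + u'‖ ≤ 1 / 4) (A B : ℕ) (hA : 0 < A)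
    (hE : u ^ A * w ^ B = (-u') ^ A * w' ^ B) : False := by
  rw [norm_mul] at hp
  have hE' : ‖u‖ ^ A * ‖w‖ ^ B = ‖u'‖ ^ A * ‖w'‖ ^ B := by
    have := congrArg norm hE
    rwa [norm_mul, norm_mul, norm_pow, norm_pow, norm_pow, norm_pow, norm_neg] at this
  rcases lt_trichotomy ‖u‖ (1 / 2) with h | h | h
  · -- `‖u'‖ = 1/2`
    have h1 : ‖(u' - u) + u‖ = ‖u' - u‖ := norm_add_of_lt (by rw [hd]; exact h)
    rw [sub_add_cancel, hd] at h1
    have h2 : ‖u‖ ≤ 1 / 4 := by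
      rw [h1] at hp
      linarith
    have h3 := key2_aux (-u') (-u) w' w (by rwa [norm_neg]) (by rwa [norm_neg])
      (by rwa [sub_neg_eq_add]) (by rwa [← sub_eq_add_neg])
    exact key2_num ‖u'‖ ‖u‖ ‖w'‖ ‖w‖ h1 h2 (norm_nonneg _) h3.1 h3.2 (norm_nonneg _) A B hA hE'.symm
  · have h2 : ‖u'‖ ≤ 1 / 4 := by
      rw [h] at hp
      linarith
    have h3 := key2_aux u u' w w' h h2 hw hw'
    exact key2_num ‖u‖ ‖u'‖ ‖w‖ ‖w'‖ h h2 (norm_nonneg _) h3.1 h3.2 (norm_nonneg _) A B hA hE'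
  · have h1 : ‖u + (u' - u)‖ = ‖u‖ := norm_add_of_lt (by rw [hd]; exact h)
    rw [add_sub_cancel] at h1
    rw [h1] at hp
    nlinarith

theorem no_disph {a b N : ℕ} (ha : 0 < a) (hb : 0 < b) (hN : 0 < N) (hab : Nat.Coprime a b)
    (hlt : a ^ 2 < 2 * b ^ 2) (δ : ℂ) (hδ : δ * δ = 2 * (a : ℂ) ^ 2 - 4 * (b : ℂ) ^ 2)
    (h : (-(a : ℂ) + δ) ^ (2 * a * N) * (2 * (b : ℂ) + δ) ^ (4 * b * N)
      = (-(a : ℂ) - δ) ^ (2 * a * N) * (2 * (b : ℂ) - δ) ^ (4 * b * N)) : False := by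
  have h1 : a < 2 * b := by nlinarith
  set D : ℤ := 2 * (a : ℤ) ^ 2 - 4 * (b : ℤ) ^ 2 with hD
  have hDneg : D < 0 := by
    have : (a : ℤ) ^ 2 < 2 * (b : ℤ) ^ 2 := by exact_mod_cast hlt
    rw [hD]
    linarith
  have hA : 0 < 2 * a * N := by positivity
  have hB : 0 < 4 * b * N := by positivity
  have hT : ∀ (R : Type) [CommRing R] (ρ : R), ρ * ρ = 2 * (a : R) ^ 2 - 4 * (b : R) ^ 2 →
      (-(a : R) + ρ) ^ (2 * a * N) * (2 * (b : R) + ρ) ^ (4 * b * N)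
        = (-(a : R) - ρ) ^ (2 * a * N) * (2 * (b : R) - ρ) ^ (4 * b * N) := by
    intro R _ ρ hρ
    have h2 := transfer (R := R) hDneg ρ (by rw [hρ, hD]; push_cast; ring) δ
      (by rw [hδ, hD]; push_cast; ring) (-(a : ℤ)) 1 (2 * b) 1 (2 * a * N) (4 * b * N)
      (by push_cast; simpa using h)
    push_cast at h2
    simpa using h2
  have hcop : ∀ p : ℕ, p.Prime → p ≠ 2 → p ∣ a → ¬ p ∣ 2 * b := by
    intro p hp hp2 hpa hpb
    have h3 : p ∣ b := by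
      rcases (Nat.Prime.dvd_mul hp).1 hpb with h4 | h4
      · exact absurd ((Nat.prime_dvd_prime_iff_eq hp Nat.prime_two).1 h4) hp2
      · exact h4
    have := Nat.dvd_gcd hpa h3
    rw [hab] at this
    exact hp.one_lt.ne' (Nat.dvd_one.1 this)
  -- (2)
  have hplus : ∀ p : ℕ, p.Prime → p ∣ 2 * b + a → p = 2 := by
    intro p hp hdvd
    by_contra hp2
    have := Fact.mk hp
    have h3 : (2 * (b : ZMod p) + a) = 0 := by
      have := (ZMod.natCast_eq_zero_iff (2 * b + a) p).2 hdvd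
      exact_mod_cast this
    have hb2 : 2 * (b : ZMod p) = -(a : ZMod p) := eq_neg_of_add_eq_zero_left h3
    have hpa : ¬ p ∣ a := by
      intro h4
      exact hcop p hp hp2 h4 ((Nat.dvd_add_left h4).1 hdvd)
    have h4 := hT (ZMod p) (a : ZMod p) (by linear_combination (-(2 * (b : ZMod p)) + a) * hb2 * (-1))
    rw [neg_add_cancel, zero_pow hA.ne', zero_mul, hb2] at h4
    have h5 := h4.symm
    have h6 : -(a : ZMod p) - (a : ZMod p) = 0 := by
      rcases mul_eq_zero.1 h5 with h7 | h7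
      · exact eq_zero_of_pow_eq_zero h7
      · exact eq_zero_of_pow_eq_zero h7
    have h7 : ((2 * a : ℕ) : ZMod p) = 0 := by
      push_cast
      linear_combination -h6
    rw [ZMod.natCast_eq_zero_iff] at h7
    rcases (Nat.Prime.dvd_mul hp).1 h7 with h8 | h8
    · exact hp2 ((Nat.prime_dvd_prime_iff_eq hp Nat.prime_two).1 h8)
    · exact hpa h8
  -- (3)
  have hminus : ∀ p : ℕ, p.Prime → p ∣ 2 * b - a → p = 2 := by
    intro p hp hdvd
    by_contra hp2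
    have := Fact.mk hp
    have hpa : ¬ p ∣ a := by
      intro h4
      refine hcop p hp hp2 h4 ?_
      have := (Nat.dvd_add_right hdvd).2 h4
      rwa [Nat.sub_add_cancel h1.le] at this
    have hpaZ : ¬ (p : ℤ) ∣ (a : ℤ) := by exact_mod_cast hpa
    have hdZ : (p : ℤ) ∣ 2 * (b : ℤ) - a := by
      have : ((2 * b - a : ℕ) : ℤ) = 2 * (b : ℤ) - a := by push_cast [Nat.cast_sub h1.le]; ring
      rw [← this]
      exact_mod_cast hdvd
    obtain ⟨ρ, hρ, hρa⟩ := sqrt_odd (p := p) hp2 (D := D) (c := (a : ℤ))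
      (by
        have : (a : ℤ) ^ 2 - D = (2 * b - a) * (2 * b + a) := by rw [hD]; ring
        rw [this]
        exact Dvd.dvd.mul_right hdZ _) hpaZ
    have hρ' : ρ * ρ = 2 * (a : ℤ_[p]) ^ 2 - 4 * (b : ℤ_[p]) ^ 2 := by
      rw [hρ, hD]
      push_cast
      ring
    have hE := hT ℤ_[p] ρ hρ'
    push_cast at hρa
    have hν : ‖2 * (b : ℤ_[p]) - a‖ < 1 := by
      have := (PadicInt.norm_int_lt_one_iff_dvd (p := p) (2 * (b : ℤ) - a)).2 hdZ
      push_cast at this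
      exact this
    have hν0 : 0 < ‖2 * (b : ℤ_[p]) - a‖ := by
      rw [norm_pos_iff]
      intro h0
      have h2 : ((2 * b : ℕ) : ℤ_[p]) = ((a : ℕ) : ℤ_[p]) := by
        push_cast
        exact sub_eq_zero.1 h0
      have h3 := Nat.cast_injective h2
      omega
    have h2a : ‖(2 : ℤ_[p]) * a‖ = 1 := by
      have h3 : ¬ (p : ℤ) ∣ (2 * a : ℤ) := by
        intro h4
        have h5 : p ∣ 2 * a := by exact_mod_cast h4
        rcases (Nat.Prime.dvd_mul hp).1 h5 with h8 | h8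
        · exact hp2 ((Nat.prime_dvd_prime_iff_eq hp Nat.prime_two).1 h8)
        · exact hpa h8
      have h4 := mt (PadicInt.norm_int_lt_one_iff_dvd (p := p) (2 * (a : ℤ))).1 h3
      push_cast at h4
      exact le_antisymm (PadicInt.norm_le_one _) (not_lt.1 h4)
    have h2n : ‖(2 : ℤ_[p])‖ = 1 := by
      have h3 : ‖(2 : ℤ_[p])‖ * ‖(a : ℤ_[p])‖ = 1 := by rw [← norm_mul]; exact h2a
      have h4 : ‖(2 : ℤ_[p])‖ ≤ 1 := PadicInt.norm_le_one _
      have h5 : ‖(a : ℤ_[p])‖ ≤ 1 := PadicInt.norm_le_one _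
      nlinarith [norm_nonneg (2 : ℤ_[p]), norm_nonneg (a : ℤ_[p])]
    have hu1 : ‖ρ + a‖ = 1 := by
      have h3 : ‖(2 : ℤ_[p]) * a + (ρ - a)‖ = ‖(2 : ℤ_[p]) * a‖ :=
        norm_add_of_lt (by rw [h2a]; exact hρa)
      rw [h2a] at h3
      convert h3 using 2
      ring
    have hu2 : ‖2 * (b : ℤ_[p]) + a‖ = 1 := by
      have h3 : ‖(2 : ℤ_[p]) * a + (2 * (b : ℤ_[p]) - a)‖ = ‖(2 : ℤ_[p]) * a‖ :=
        norm_add_of_lt (by rw [h2a]; exact hν)
      rw [h2a] at h3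
      convert h3 using 2
      ring
    have hu3 : ‖2 * (b : ℤ_[p]) + ρ‖ = 1 := by
      have h3 : ‖(2 : ℤ_[p]) * a + ((2 * (b : ℤ_[p]) - a) + (ρ - a))‖ = ‖(2 : ℤ_[p]) * a‖ :=
        norm_add_of_lt (by
          rw [h2a]
          exact lt_of_le_of_lt (PadicInt.nonarchimedean _ _) (max_lt hν hρa))
      rw [h2a] at h3
      convert h3 using 2
      ring
    have hm1 : ‖-(a : ℤ_[p]) + ρ‖ = ‖2 * (b : ℤ_[p]) - a‖ := by
      have h3 : (-(a : ℤ_[p]) + ρ) * (ρ + a) = -((2 * (b : ℤ_[p]) - a) * (2 * (b : ℤ_[p]) + a)) := by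
        linear_combination hρ'
      have h4 := congrArg norm h3
      rw [norm_mul, norm_neg, norm_mul, hu1, hu2, mul_one, mul_one] at h4
      exact h4
    have hm2 : ‖2 * (b : ℤ_[p]) - ρ‖ = ‖2 * (b : ℤ_[p]) - a‖ := by
      have h3 : (2 * (b : ℤ_[p]) - ρ) * (2 * (b : ℤ_[p]) + ρ) =
          2 * ((2 * (b : ℤ_[p]) - a) * (2 * (b : ℤ_[p]) + a)) := by
        linear_combination -hρ'
      have h4 := congrArg norm h3
      rw [norm_mul, norm_mul, norm_mul, hu3, hu2, h2n, mul_one, one_mul, mul_one] at h4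
      exact h4
    have hm3 : ‖-(a : ℤ_[p]) - ρ‖ = 1 := by
      rw [← hu1, ← norm_neg]
      congr 1
      ring
    have h5 := congrArg norm hE
    rw [norm_mul, norm_mul, norm_pow, norm_pow, norm_pow, norm_pow, hm1, hm2, hm3, hu3, one_pow, one_pow,
      mul_one, one_mul] at h5
    have h6 := (pow_right_injective₀ hν0 hν.ne) h5
    have h7 : 2 * a * N = 4 * b * N := h6
    have h8 : 2 * a = 4 * b := Nat.eq_of_mul_eq_mul_right hN h7
    omega
  obtain ⟨m, hm, hma, hmb⟩ := par ha hab h1 hminus hplus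
  -- (4)
  have hm2 : m = 1 ∨ m = 2 := by
    by_contra hcon
    have hm3 : 3 ≤ m := by omega
    have h8 : 8 ≤ 2 ^ m := by
      calc 8 = 2 ^ 3 := by norm_num
        _ ≤ 2 ^ m := Nat.pow_le_pow_right (by norm_num) hm3
    obtain ⟨t, ht⟩ : ∃ t, 2 ^ m = t + 8 := ⟨2 ^ m - 8, by omega⟩
    rw [ht] at hma hmb
    have h9 : a = 2 * (t + 7) := by omega
    have h10 : b = t + 9 := by omega
    rw [h9, h10] at hlt
    nlinarith
  -- (5)
  obtain ⟨ε, hε⟩ := sqrt_two (D := -7) (by norm_num)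
  push_cast at hε
  have h2n : ‖(2 : ℤ_[2])‖ = 1 / 2 := by
    have := PadicInt.norm_p (p := 2)
    push_cast at this
    rw [this]
    norm_num
  have h2ne : (2 : ℤ_[2]) ≠ 0 := by
    rw [← norm_pos_iff, h2n]
    norm_num
  rcases hm2 with rfl | rfl
  · have ha2 : a = 2 := by norm_num at hma; exact hma
    have hb3 : b = 3 := by norm_num at hmb; exact hmb
    subst ha2
    subst hb3
    have hE := hT ℤ_[2] (2 * ε) (by push_cast; linear_combination 4 * hε)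
    push_cast at hE
    refine key2 (ε - 1) (ε + 1) (3 + ε) (3 - ε) ?_ ?_ ?_ ?_ (2 * 2 * N) (4 * 3 * N) hA ?_
    · have : ε + 1 - (ε - 1) = 2 := by ring
      rw [this, h2n]
    · have : (ε - 1) * (ε + 1) = -(2 * 2 * 2) := by linear_combination hε
      rw [this, norm_neg, norm_mul, norm_mul, h2n]
      norm_num
    · have : 3 + ε - (ε - 1) = 2 * 2 := by ring
      rw [this, norm_mul, h2n]
      norm_num
    · have : 3 - ε + (ε + 1) = 2 * 2 := by ring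
      rw [this, norm_mul, h2n]
      norm_num
    · have e1 : (-2 + 2 * ε) = 2 * (ε - 1) := by ring
      have e2 : (2 * 3 + 2 * ε) = 2 * (3 + ε) := by ring
      have e3 : (-2 - 2 * ε) = 2 * (-(ε + 1)) := by ring
      have e4 : (2 * 3 - 2 * ε) = 2 * (3 - ε) := by ring
      rw [e1, e2, e3, e4, mul_pow, mul_pow, mul_pow, mul_pow] at hE
      have h3 : (2 : ℤ_[2]) ^ (2 * 2 * N) * 2 ^ (4 * 3 * N) ≠ 0 :=
        mul_ne_zero (pow_ne_zero _ h2ne) (pow_ne_zero _ h2ne)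
      refine mul_left_cancel₀ h3 ?_
      linear_combination hE
  · have ha2 : a = 6 := by norm_num at hma; exact hma
    have hb3 : b = 5 := by norm_num at hmb; exact hmb
    subst ha2
    subst hb3
    have h3n : ‖(3 : ℤ_[2])‖ = 1 := by
      have h3 : ¬ ((2 : ℕ) : ℤ) ∣ (3 : ℤ) := by decide
      have h4 := mt (PadicInt.norm_int_lt_one_iff_dvd (p := 2) (3 : ℤ)).1 h3
      push_cast at h4
      exact le_antisymm (PadicInt.norm_le_one _) (not_lt.1 h4)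
    have hE := hT ℤ_[2] (2 * ε) (by push_cast; linear_combination 4 * hε)
    push_cast at hE
    refine key2 (ε - 3) (ε + 3) (5 + ε) (5 - ε) ?_ ?_ ?_ ?_ (2 * 6 * N) (4 * 5 * N) hA ?_
    · have : ε + 3 - (ε - 3) = 2 * 3 := by ring
      rw [this, norm_mul, h2n, h3n]
      norm_num
    · have : (ε - 3) * (ε + 3) = -(2 * 2 * 2 * 2) := by linear_combination hε
      rw [this, norm_neg, norm_mul, norm_mul, norm_mul, h2n]
      norm_num
    · have : 5 + ε - (ε - 3) = 2 * 2 * 2 := by ring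
      rw [this, norm_mul, norm_mul, h2n]
      norm_num
    · have : 5 - ε + (ε + 3) = 2 * 2 * 2 := by ring
      rw [this, norm_mul, norm_mul, h2n]
      norm_num
    · have e1 : (-6 + 2 * ε) = 2 * (ε - 3) := by ring
      have e2 : (2 * 5 + 2 * ε) = 2 * (5 + ε) := by ring
      have e3 : (-6 - 2 * ε) = 2 * (-(ε + 3)) := by ring
      have e4 : (2 * 5 - 2 * ε) = 2 * (5 - ε) := by ring
      rw [e1, e2, e3, e4, mul_pow, mul_pow, mul_pow, mul_pow] at hE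
      have h3 : (2 : ℤ_[2]) ^ (2 * 6 * N) * 2 ^ (4 * 5 * N) ≠ 0 :=
        mul_ne_zero (pow_ne_zero _ h2ne) (pow_ne_zero _ h2ne)
      refine mul_left_cancel₀ h3 ?_
      linear_combination hE

end Pool.Agent.helper37.RO
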