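import Pool.Agent.helper37.RO.Niv
import Pool.Agent.helper37.RO.Ntq
import Pool.Agent.helper37.RO.Geq
import Pool.Agent.helper37.RO.Dic
import Pool.Agent.helper37.NP.ZLe
import Pool.Agent.helper37.NP.Ana

/-!
RO-10 (Dis).  author: helper59.  A tetragonal disphenoid with Dehn invariant zero is Sommerville's.

PROOF.  `l = ![a, b, b, b, b, a] = a • iv u + b • iv v`, `u = ![1,0,0,0,0,1]`, `v = ![0,1,1,1,1,0]`,
`t = ang l`, `dotp (iv u) t = 2α`, `dotp (iv v) t = 4β` (`dis_angles`).  `dehn_data`, `rat_or`.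
(1) `α = π q1`, `β = π q2`: `cos α = 1 - 2cos β` is integral over `ℤ` (`2cos β` is integral), so
`cos α ∈ {0, 1, -1}` by `cos_integral`; `α ∈ (0, π)` so `cos α = 0`, and the formula for `cos α` gives
`4b² = 3a²`, `b = (√3/2) a`: claim with `k = a/2`.
(2) `a = c x`, `b = c y`, `2 x α + 4 y β = π q`.  As in RO-09 with `l' = ![x, y, y, y, y, x]`:
`exp (iα) (x + δ) = -x + δ`, `exp (iβ) (2y - δ) = 2y + δ`, `δ = √(4y² - 2x²) i`.  With `N = 2 q.den`:
`(exp (iα))^(2xN) (exp (iβ))^(4yN) = exp (i N π q) = exp (2 π i q.num) = 1`, so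
`(-x + δ)^(2xN) (2y + δ)^(4yN) = (x + δ)^(2xN) (2y - δ)^(4yN)` and `(x + δ)^(2xN) = (-x - δ)^(2xN)`.
`no_disph`.
-/

namespace Pool.Agent.helper37.RO

open Real Pool.Agent.helper37.NP Pool.Agent.helper37.NL Pool.Agent.Helper93.Tet

private theorem dis_dot (t : V6) :
    dotp (iv ![1, 0, 0, 0, 0, 1]) t = t 0 + t 5 ∧
    dotp (iv ![0, 1, 1, 1, 1, 0]) t = t 1 + t 2 + t 3 + t 4 := by
  constructor <;> simp [dotp, iv]

/-- the exponential identity of case (2) -/
private theorem dis_exp {α β δ' : ℝ} {x y : ℕ} {q : ℚ}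
    (h1 : Complex.exp ((α : ℂ) * Complex.I) * ((x : ℂ) + (δ' : ℂ) * Complex.I) =
      -(x : ℂ) + (δ' : ℂ) * Complex.I)
    (h2 : Complex.exp ((β : ℂ) * Complex.I) * (2 * (y : ℂ) - (δ' : ℂ) * Complex.I) =
      2 * (y : ℂ) + (δ' : ℂ) * Complex.I)
    (hq : (x : ℝ) * (2 * α) + (y : ℝ) * (4 * β) = π * (q : ℝ)) :
    (-(x : ℂ) + (δ' : ℂ) * Complex.I) ^ (2 * x * (2 * q.den)) *
      (2 * (y : ℂ) + (δ' : ℂ) * Complex.I) ^ (4 * y * (2 * q.den)) =
    (-(x : ℂ) - (δ' : ℂ) * Complex.I) ^ (2 * x * (2 * q.den)) *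
      (2 * (y : ℂ) - (δ' : ℂ) * Complex.I) ^ (4 * y * (2 * q.den)) := by
  have hE : Complex.exp ((α : ℂ) * Complex.I) ^ (2 * x * (2 * q.den)) *
      Complex.exp ((β : ℂ) * Complex.I) ^ (4 * y * (2 * q.den)) = 1 := by
    rw [← Complex.exp_nat_mul, ← Complex.exp_nat_mul, ← Complex.exp_add]
    have hqd : (q : ℝ) * q.den = q.num := by
      exact_mod_cast Rat.mul_den_eq_num q
    have hreal : (2 * x * (2 * q.den) : ℝ) * α + (4 * y * (2 * q.den) : ℝ) * β =
        2 * π * (q.num : ℝ) := by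
      have : (2 * x * (2 * q.den) : ℝ) * α + (4 * y * (2 * q.den) : ℝ) * β =
          2 * q.den * ((x : ℝ) * (2 * α) + (y : ℝ) * (4 * β)) := by ring
      rw [this, hq, ← hqd]
      ring
    have hcomplex : ((2 * x * (2 * q.den) : ℕ) : ℂ) * ((α : ℂ) * Complex.I) +
        ((4 * y * (2 * q.den) : ℕ) : ℂ) * ((β : ℂ) * Complex.I) =
        (q.num : ℂ) * (2 * π * Complex.I) := by
      have h3 : (((2 * x * (2 * q.den) : ℝ) * α + (4 * y * (2 * q.den) : ℝ) * β : ℝ) : ℂ) =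
          ((2 * π * (q.num : ℝ) : ℝ) : ℂ) := by rw [hreal]
      push_cast at h3 ⊢
      linear_combination Complex.I * h3
    rw [hcomplex]
    exact Complex.exp_int_mul_two_pi_mul_I _
  have heven : Even (2 * x * (2 * q.den)) := ⟨2 * x * q.den, by ring⟩
  have h3 : (-(x : ℂ) - (δ' : ℂ) * Complex.I) ^ (2 * x * (2 * q.den)) =
      ((x : ℂ) + (δ' : ℂ) * Complex.I) ^ (2 * x * (2 * q.den)) := by
    have : -(x : ℂ) - (δ' : ℂ) * Complex.I = -((x : ℂ) + (δ' : ℂ) * Complex.I) := by ring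
    rw [this, heven.neg_pow]
  rw [h3, ← h1, ← h2, mul_pow, mul_pow]
  have h4 : ∀ u v z w : ℂ, u * v = 1 → u * z * (v * w) = z * w := by
    intro u v z w huv
    linear_combination (z * w) * huv
  exact h4 _ _ _ _ hE

theorem dis_eq {A B C D : E} (h : AffineIndependent ℝ ![A, B, C, D]) {a b : ℝ}
    (hl : lenv A B C D = ![a, b, b, b, b, a]) (hD : dehn A B C D = 0) :
    ∃ k : ℝ, 0 < k ∧ lenv A B C D = k • (![2, √3, √3, √3, √3, 2] : V6) := by
  have hT : (![a, b, b, b, b, a] : V6) ∈ T := by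
    rw [← hl]
    exact lenv_mem h
  obtain ⟨ha, hb, hab, e5, e2, e3, e4, hcos, hsum, -, -⟩ := dis_angles hT
  have hang : angv A B C D = ang ![a, b, b, b, b, a] := by rw [← ang_lenv h, hl]
  obtain ⟨k, s, r, hs, hsp, hr⟩ := dehn_data hD
  have hl' : lenv A B C D = a • iv ![1, 0, 0, 0, 0, 1] + b • iv ![0, 1, 1, 1, 1, 0] := by
    rw [hl]
    funext e
    fin_cases e <;> simp [iv]
  rw [hl'] at hsp
  rcases rat_or s r hs hr ha hb hsp with ⟨q1, q2, h1, h2⟩ | ⟨x, y, c, q, hx, hy, hxy, hc, hax, hby, hq⟩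
  · rw [hang, (dis_dot _).1, e5] at h1
    rw [hang, (dis_dot _).2, e2, e3, e4] at h2
    have hα : ang ![a, b, b, b, b, a] 0 = π * ((q1 / 2 : ℚ) : ℝ) := by
      push_cast
      linarith
    have hβ : ang ![a, b, b, b, b, a] 1 = ((q2 / 4 : ℚ) : ℝ) * π := by
      push_cast
      linarith
    have hint : IsIntegral ℤ (Real.cos (π * ((q1 / 2 : ℚ) : ℝ))) := by
      rw [← hα]
      have h3 : cos (ang ![a, b, b, b, b, a] 0) = 1 - 2 * cos (ang ![a, b, b, b, b, a] 1) := by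
        linarith
      rw [h3, hβ]
      exact isIntegral_one.sub (Real.isIntegral_two_mul_cos_rat_mul_pi _)
    have hden : 0 < 4 * b ^ 2 - a ^ 2 := by nlinarith
    rcases cos_integral hint with h3 | h3 | h3
    · rw [← hα, hcos, div_eq_zero_iff] at h3
      rcases h3 with h3 | h3
      · have hb' : b = a / 2 * √3 := by
          have h4 : b ^ 2 = (a / 2 * √3) ^ 2 := by
            rw [mul_pow, Real.sq_sqrt (by norm_num)]
            linarith
          exact (pow_left_inj₀ hb.le (by positivity) two_ne_zero).1 h4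
        refine ⟨a / 2, by positivity, ?_⟩
        rw [hl]
        have ha' : a = a / 2 * 2 := by ring
        funext e
        fin_cases e
        · exact ha'
        · exact hb'
        · exact hb'
        · exact hb'
        · exact hb'
        · exact ha'
      · exact absurd h3 hden.ne'
    · exfalso
      rw [← hα, hcos, div_eq_one_iff_eq hden.ne'] at h3
      nlinarith [mul_pos ha ha]
    · exfalso
      rw [← hα, hcos, div_eq_iff hden.ne'] at h3
      nlinarith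
  · exfalso
    rw [hang, (dis_dot _).1, (dis_dot _).2, e5, e2, e3, e4] at hq
    -- the rescaled tetrahedron
    have hscale : (![a, b, b, b, b, a] : V6) =
        c • (![(x : ℝ), y, y, y, y, x] : V6) := by
      rw [hax, hby]
      funext e
      fin_cases e <;> rfl
    have hT' : (![(x : ℝ), y, y, y, y, x] : V6) ∈ T := by
      have h3 : (![(x : ℝ), y, y, y, y, x] : V6) = c⁻¹ • (![a, b, b, b, b, a] : V6) := by
        rw [hscale, smul_smul, inv_mul_cancel₀ hc.ne', one_smul]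
      rw [h3]
      exact smul_mem_T hT (inv_pos.2 hc)
    rw [hscale, ang_smul hc] at hq
    obtain ⟨-, -, hxy2, -, -, -, -, -, -, g1, g2⟩ := dis_angles hT'
    have hxyn : x ^ 2 < 2 * y ^ 2 := by exact_mod_cast hxy2
    have hδ : ((√(4 * (y : ℝ) ^ 2 - 2 * (x : ℝ) ^ 2) : ℂ) * Complex.I) *
        ((√(4 * (y : ℝ) ^ 2 - 2 * (x : ℝ) ^ 2) : ℂ) * Complex.I) =
        2 * (x : ℂ) ^ 2 - 4 * (y : ℂ) ^ 2 := by
      have h3 : (√(4 * (y : ℝ) ^ 2 - 2 * (x : ℝ) ^ 2)) * (√(4 * (y : ℝ) ^ 2 - 2 * (x : ℝ) ^ 2)) =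
          4 * (y : ℝ) ^ 2 - 2 * (x : ℝ) ^ 2 := Real.mul_self_sqrt (by linarith)
      have h4 : ((√(4 * (y : ℝ) ^ 2 - 2 * (x : ℝ) ^ 2) : ℝ) : ℂ) *
          ((√(4 * (y : ℝ) ^ 2 - 2 * (x : ℝ) ^ 2) : ℝ) : ℂ) =
          4 * (y : ℂ) ^ 2 - 2 * (x : ℂ) ^ 2 := by
        rw [← Complex.ofReal_mul, h3]
        push_cast
        ring
      have h5 : ∀ z : ℂ, (z * Complex.I) * (z * Complex.I) = -(z * z) := by
        intro z
        linear_combination (z * z) * Complex.I_mul_I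
      rw [h5, h4]
      ring
    refine no_disph hx hy (N := 2 * q.den) (by have := q.den_pos; omega) hxy hxyn
      ((√(4 * (y : ℝ) ^ 2 - 2 * (x : ℝ) ^ 2) : ℂ) * Complex.I) hδ ?_
    refine dis_exp (α := ang ![(x : ℝ), y, y, y, y, x] 0) (β := ang ![(x : ℝ), y, y, y, y, x] 1)
      ?_ ?_ ?_
    · exact_mod_cast g1
    · exact_mod_cast g2
    · linarith

end Pool.Agent.helper37.RO
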