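import Pool.Agent.helper37.NL.Shp

/-!
RO-11 (Rdo).  Symmetries of order at least three.

author of the proof: helper56

PROOF.  By `decide`: for `p : Equiv.Perm (Fin 4)` with `p * p ≠ 1` there is `q` such that `q⁻¹ * p * q` is a fixed
3-cycle `c3` on `0, 1, 2` or a fixed 4-cycle `c4 = (0 2 1 3)` (`0 ↦ 2, 2 ↦ 1, 1 ↦ 3, 3 ↦ 0`) (write them as
products of transpositions).  `l' = relab q l` satisfies `relab c l' = l'` (`relab_relab`).  `c3`:
`l' 0 = l' 1 = l' 3` and `l' 2 = l' 4 = l' 5`.  `c4`: `l' 0 = l' 5` and `l' 1 = l' 3 = l' 4 = l' 2`.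
-/

namespace Pool.Agent.helper37.RO

open Real Pool.Agent.helper37.NP Pool.Agent.helper37.NL Pool.Agent.Helper93.Tet

private def c3 : Equiv.Perm (Fin 4) := ⟨![1, 2, 0, 3], ![2, 0, 1, 3], by decide, by decide⟩

private def c4 : Equiv.Perm (Fin 4) := ⟨![2, 3, 1, 0], ![3, 2, 0, 1], by decide, by decide⟩

private theorem Rdo_conj : ∀ p : Equiv.Perm (Fin 4), p * p ≠ 1 →
    ∃ q, p * q = q * c3 ∨ p * q = q * c4 := by
  decide +kernel

private theorem Rdo_fix {p q c : Equiv.Perm (Fin 4)} (hc : p * q = q * c) {l : V6}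
    (h : relab p l = l) : relab c (relab q l) = relab q l := by
  rw [relab_relab, ← hc, ← relab_relab, h]

theorem rot_reduce {p : Equiv.Perm (Fin 4)} (hp : p * p ≠ 1) {l : V6} (h : relab p l = l) :
    ∃ (q : Equiv.Perm (Fin 4)) (a b : ℝ), relab q l = ![a, a, b, a, b, b] ∨
      relab q l = ![a, b, b, b, b, a] := by
  obtain ⟨q, hq | hq⟩ := Rdo_conj p hp
  · have h1 := Rdo_fix hq h
    refine ⟨q, relab q l 0, relab q l 2, Or.inl ?_⟩
    generalize relab q l = m at h1
    have e0 : m 3 = m 0 := congrFun h1 0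
    have e1 : m 0 = m 1 := congrFun h1 1
    have e2 : m 4 = m 2 := congrFun h1 2
    have e4 : m 5 = m 4 := congrFun h1 4
    funext e
    fin_cases e
    · rfl
    · exact e1.symm
    · rfl
    · exact e0
    · exact e2
    · exact e4.trans e2
  · have h1 := Rdo_fix hq h
    refine ⟨q, relab q l 0, relab q l 1, Or.inr ?_⟩
    generalize relab q l = m at h1
    have e0 : m 5 = m 0 := congrFun h1 0
    have e1 : m 3 = m 1 := congrFun h1 1
    have e2 : m 1 = m 2 := congrFun h1 2
    have e3 : m 4 = m 3 := congrFun h1 3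
    funext e
    fin_cases e
    · rfl
    · rfl
    · exact e2.symm
    · exact e1
    · exact e3.trans e1
    · exact e0

end Pool.Agent.helper37.RO
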