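import Pool.Agent.helper37.RO.Pyr
import Pool.Agent.helper37.RO.Dis
import Pool.Agent.helper37.RO.Rdo
import Pool.Agent.helper37.SY.Fin

/-!
RO (Fin).  Tetrahedra with a symmetry of order at least three.
-/

namespace Pool.Agent.helper37.RO

open Real Pool.Agent.helper37.NP Pool.Agent.helper37.NL Pool.Agent.Helper93.Tet
open Pool.Agent.helper37.SY

theorem H2v_zero : H2v 0 = ![2, √3, √3, √3, √3, 2] := by
  unfold H2v
  norm_num

theorem order_three {a b c d : E} (h : AffineIndependent ℝ ![a, b, c, d])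
    {p : Equiv.Perm (Fin 4)} (hp : p * p ≠ 1) (hs : relab p (lenv a b c d) = lenv a b c d) :
    dehn a b c d = 0 ↔ ∃ (q : Equiv.Perm (Fin 4)) (k : ℝ), 0 < k ∧
      relab q (lenv a b c d) = k • (![2, √3, √3, √3, √3, 2] : V6) := by
  constructor
  · intro hD
    obtain ⟨q, x, y, hq⟩ := rot_reduce hp hs
    let P : Fin 4 → E := ![a, b, c, d]
    have hP : AffineIndependent ℝ P := h
    have hP' : AffineIndependent ℝ (fun i => P (q i)) := hP.comp_embedding q.toEmbedding
    have h4 : AffineIndependent ℝ ![P (q 0), P (q 1), P (q 2), P (q 3)] := by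
      convert hP' using 1
      funext i
      fin_cases i <;> rfl
    have hl : lenv (P (q 0)) (P (q 1)) (P (q 2)) (P (q 3)) = relab q (lenv a b c d) :=
      lenv_perm P q
    have hD' : dehn (P (q 0)) (P (q 1)) (P (q 2)) (P (q 3)) = 0 := by
      refine dehn_perm (fun i => P (q i)) hP' q⁻¹ ?_
      have hi : ∀ i, q (q⁻¹ i) = i := fun i => q.apply_symm_apply i
      change dehn (P (q (q⁻¹ 0))) (P (q (q⁻¹ 1))) (P (q (q⁻¹ 2))) (P (q (q⁻¹ 3))) = 0
      rw [hi, hi, hi, hi]
      exact hD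
    rcases hq with hq | hq
    · exact absurd hD' (pyr_ne h4 (hl.trans hq))
    · obtain ⟨k, hk, hk'⟩ := dis_eq h4 (hl.trans hq) hD'
      exact ⟨q, k, hk, by rw [← hl]; exact hk'⟩
  · rintro ⟨q, k, hk, hq⟩
    refine conc_dehn h ⟨q, k, hk, Or.inr (Or.inr ⟨0, by norm_num, ?_⟩)⟩
    rw [H2v_zero]
    exact hq

end Pool.Agent.helper37.RO
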