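import Pool.Agent.helper37.NL.Shp
import Pool.Agent.helper37.NP.Perm

/-!
RO-06 (Gep).  Angles of the regular triangular pyramid `![a, a, b, a, b, b]` (base `abc` with side `a`,
lateral edges `b`).

PROOF.  `l ∈ T` gives `a, b > 0` and `W l = a⁴ (3b² - a²) > 0`, so `a² < 3b²`.
Symmetry: `sab l = l`, `sbc l = l` (`ang_sab`, `ang_sbc`) give `ang l 0 = ang l 1 = ang l 3`,
`ang l 2 = ang l 4 = ang l 5`.
`cos_ang`, `sin_ang` (`NP/Bas`) for `e = 0`: `nu l 0 = a⁴`, `ha l 0 = 3a⁴`, `hb l 0 = a² (4b² - a²)`: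
`cos α = a / (√3 √(4b² - a²))`, `sin α = 2 √(3b² - a²) / (√3 √(4b² - a²))`.  For `e = 2`:
`nu l 2 = a² (2b² - a²)`, `ha l 2 = hb l 2 = a² (4b² - a²)`: `cos β = (2b² - a²)/(4b² - a²)`,
`sin β = 2b √(3b² - a²)/(4b² - a²)`.  With `δ = √(3b² - a²) i`, `δ² = a² - 3b²`:
`(cos 2α + i sin 2α)(a - 2δ) = a + 2δ` and `(cos β + i sin β)(b + δ) = -(b - δ)` (clear denominators).
-/

namespace Pool.Agent.helper37.RO

open Real Pool.Agent.helper37.NP Pool.Agent.helper37.NL Pool.Agent.Helper93.Tet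

private theorem Gep_cx1 {a s k : ℂ} (hk0 : k ≠ 0) (hk : k ^ 2 = a ^ 2 + 4 * s ^ 2) :
    (a / k + 2 * s / k * Complex.I) ^ 2 * (a - 2 * (s * Complex.I)) =
      a + 2 * (s * Complex.I) := by
  have h1 : (a + 2 * (s * Complex.I)) * (a - 2 * (s * Complex.I)) = k ^ 2 := by
    linear_combination (-4 * s ^ 2) * Complex.I_sq - hk
  have h2 : (a / k + 2 * s / k * Complex.I) ^ 2 * (a - 2 * (s * Complex.I)) =
      (a + 2 * (s * Complex.I)) *
        ((a + 2 * (s * Complex.I)) * (a - 2 * (s * Complex.I))) / k ^ 2 := by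
    field_simp
  rw [h2, h1, mul_div_assoc, div_self (pow_ne_zero 2 hk0), mul_one]

private theorem Gep_cx2 {a b s D : ℂ} (hD0 : D ≠ 0) (hD : D = b ^ 2 + s ^ 2)
    (ha : 2 * b ^ 2 - a ^ 2 = s ^ 2 - b ^ 2) :
    ((2 * b ^ 2 - a ^ 2) / D + 2 * b * s / D * Complex.I) * (b + s * Complex.I) =
      -(b - s * Complex.I) := by
  have h1 : ((s ^ 2 - b ^ 2) + 2 * b * s * Complex.I) * (b + s * Complex.I) =
      -(b - s * Complex.I) * D := by
    rw [hD]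
    linear_combination (2 * b * s ^ 2) * Complex.I_sq
  rw [ha]
  have h2 : ((s ^ 2 - b ^ 2) / D + 2 * b * s / D * Complex.I) * (b + s * Complex.I) =
      (((s ^ 2 - b ^ 2) + 2 * b * s * Complex.I) * (b + s * Complex.I)) / D := by
    field_simp
  rw [h2, h1, mul_div_assoc, div_self hD0, mul_one]

theorem pyr_angles {a b : ℝ} (h : (![a, a, b, a, b, b] : V6) ∈ T) :
    0 < a ∧ 0 < b ∧ a ^ 2 < 3 * b ^ 2 ∧
    ang ![a, a, b, a, b, b] 1 = ang ![a, a, b, a, b, b] 0 ∧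
    ang ![a, a, b, a, b, b] 3 = ang ![a, a, b, a, b, b] 0 ∧
    ang ![a, a, b, a, b, b] 4 = ang ![a, a, b, a, b, b] 2 ∧
    ang ![a, a, b, a, b, b] 5 = ang ![a, a, b, a, b, b] 2 ∧
    2 * cos (ang ![a, a, b, a, b, b] 2) = 1 - 3 * cos (ang ![a, a, b, a, b, b] 0) ^ 2 ∧
    Complex.exp (2 * (ang ![a, a, b, a, b, b] 0 : ℂ) * Complex.I)
        * ((a : ℂ) - 2 * (√(3 * b ^ 2 - a ^ 2) * Complex.I))
      = (a : ℂ) + 2 * (√(3 * b ^ 2 - a ^ 2) * Complex.I) ∧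
    Complex.exp ((ang ![a, a, b, a, b, b] 2 : ℂ) * Complex.I)
        * ((b : ℂ) + √(3 * b ^ 2 - a ^ 2) * Complex.I)
      = -((b : ℂ) - √(3 * b ^ 2 - a ^ 2) * Complex.I) := by
  have ha : 0 < a := T_pos h 0
  have hb : 0 < b := T_pos h 2
  have hW : W ![a, a, b, a, b, b] = a ^ 4 * (3 * b ^ 2 - a ^ 2) := by
    change Wsq (a ^ 2) (a ^ 2) (b ^ 2) (a ^ 2) (b ^ 2) (b ^ 2) = _
    unfold Wsq
    ring
  have hWp : 0 < W ![a, a, b, a, b, b] := h.2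
  rw [hW] at hWp
  have hs2 : 0 < 3 * b ^ 2 - a ^ 2 := (pos_iff_pos_of_mul_pos hWp).1 (by positivity)
  obtain ⟨s, hs⟩ : ∃ s : ℝ, s = √(3 * b ^ 2 - a ^ 2) := ⟨_, rfl⟩
  have hsp : 0 < s := by rw [hs]; exact Real.sqrt_pos.2 hs2
  have hss : s ^ 2 = 3 * b ^ 2 - a ^ 2 := by rw [hs, Real.sq_sqrt hs2.le]
  have hD : 0 < 4 * b ^ 2 - a ^ 2 := by nlinarith
  obtain ⟨k, hk⟩ : ∃ k : ℝ, k = √(3 * (4 * b ^ 2 - a ^ 2)) := ⟨_, rfl⟩
  have hkp : 0 < k := by rw [hk]; exact Real.sqrt_pos.2 (by positivity)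
  have hkk : k ^ 2 = 3 * (4 * b ^ 2 - a ^ 2) := by rw [hk, Real.sq_sqrt (by positivity)]
  have hsW : √(W ![a, a, b, a, b, b]) = a ^ 2 * s := by
    rw [hW, ← hss, show a ^ 4 * s ^ 2 = (a ^ 2 * s) ^ 2 by ring,
      Real.sqrt_sq (by positivity)]
  have n0 : nu ![a, a, b, a, b, b] 0 = a ^ 4 := by
    change Nu a a b a b b = _
    unfold Nu
    ring
  have n2 : nu ![a, a, b, a, b, b] 2 = a ^ 2 * (2 * b ^ 2 - a ^ 2) := by
    change Nu b a a b b a = _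
    unfold Nu
    ring
  have d0 : √(NP.ha ![a, a, b, a, b, b] 0) * √(NP.hb ![a, a, b, a, b, b] 0) = a ^ 3 * k := by
    have e1 : NP.ha ![a, a, b, a, b, b] 0 = 3 * a ^ 4 := by
      change He a a a = _
      unfold He
      ring
    have e2 : NP.hb ![a, a, b, a, b, b] 0 = a ^ 2 * (4 * b ^ 2 - a ^ 2) := by
      change He a b b = _
      unfold He
      ring
    rw [e1, e2, ← Real.sqrt_mul (by positivity),
      show 3 * a ^ 4 * (a ^ 2 * (4 * b ^ 2 - a ^ 2)) = (a ^ 3 * k) ^ 2 by rw [mul_pow, hkk]; ring,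
      Real.sqrt_sq (by positivity)]
  have d2 : √(NP.ha ![a, a, b, a, b, b] 2) * √(NP.hb ![a, a, b, a, b, b] 2) =
      a ^ 2 * (4 * b ^ 2 - a ^ 2) := by
    have e1 : NP.ha ![a, a, b, a, b, b] 2 = a ^ 2 * (4 * b ^ 2 - a ^ 2) := by
      change He b a b = _
      unfold He
      ring
    have e2 : NP.hb ![a, a, b, a, b, b] 2 = a ^ 2 * (4 * b ^ 2 - a ^ 2) := by
      change He b a b = _
      unfold He
      ring
    rw [e1, e2, Real.mul_self_sqrt (by positivity)]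
  have c0 : cos (ang ![a, a, b, a, b, b] 0) = a / k := by
    rw [cos_ang h, n0, d0]
    field_simp
  have s0 : sin (ang ![a, a, b, a, b, b] 0) = 2 * s / k := by
    rw [sin_ang h, hsW, d0]
    change 2 * a * (a ^ 2 * s) / (a ^ 3 * k) = _
    field_simp
  have c2 : cos (ang ![a, a, b, a, b, b] 2) = (2 * b ^ 2 - a ^ 2) / (4 * b ^ 2 - a ^ 2) := by
    rw [cos_ang h, n2, d2]
    field_simp
  have s2 : sin (ang ![a, a, b, a, b, b] 2) = 2 * b * s / (4 * b ^ 2 - a ^ 2) := by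
    rw [sin_ang h, hsW, d2]
    change 2 * b * (a ^ 2 * s) / (a ^ 2 * (4 * b ^ 2 - a ^ 2)) = _
    field_simp
  refine ⟨ha, hb, by linarith, rfl, rfl, rfl, rfl, ?_, ?_, ?_⟩
  · have e : ∀ D : ℝ, D ≠ 0 → 4 * b ^ 2 - a ^ 2 = D →
        2 * ((2 * b ^ 2 - a ^ 2) / D) = 1 - 3 * (a ^ 2 / (3 * D)) := by
      intro D hD hE
      field_simp
      linarith
    rw [c0, c2, div_pow, hkk]
    exact e _ hD.ne' rfl
  · rw [← hs]
    have e1 : Complex.exp (2 * (ang ![a, a, b, a, b, b] 0 : ℂ) * Complex.I) =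
        ((a : ℂ) / k + 2 * s / k * Complex.I) ^ 2 := by
      have e2 : (2 * (ang ![a, a, b, a, b, b] 0 : ℂ) * Complex.I) =
          ((2 : ℕ) : ℂ) * ((ang ![a, a, b, a, b, b] 0 : ℂ) * Complex.I) := by
        push_cast
        ring
      rw [e2, Complex.exp_nat_mul, Complex.exp_mul_I, ← Complex.ofReal_cos, ← Complex.ofReal_sin,
        c0, s0]
      push_cast
      rfl
    rw [e1]
    refine Gep_cx1 (by exact_mod_cast hkp.ne') ?_
    have e3 : k ^ 2 = a ^ 2 + 4 * s ^ 2 := by rw [hkk, hss]; ring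
    exact_mod_cast e3
  · rw [← hs]
    have e1 : Complex.exp ((ang ![a, a, b, a, b, b] 2 : ℂ) * Complex.I) =
        ((2 * (b : ℂ) ^ 2 - (a : ℂ) ^ 2) / ((4 * b ^ 2 - a ^ 2 : ℝ) : ℂ) +
          2 * b * s / ((4 * b ^ 2 - a ^ 2 : ℝ) : ℂ) * Complex.I) := by
      rw [Complex.exp_mul_I, ← Complex.ofReal_cos, ← Complex.ofReal_sin, c2, s2]
      push_cast
      rfl
    rw [e1]
    refine Gep_cx2 (by exact_mod_cast hD.ne') ?_ ?_
    · have e3 : 4 * b ^ 2 - a ^ 2 = b ^ 2 + s ^ 2 := by rw [hss]; ring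
      exact_mod_cast e3
    · have e3 : 2 * b ^ 2 - a ^ 2 = s ^ 2 - b ^ 2 := by rw [hss]; ring
      exact_mod_cast e3

end Pool.Agent.helper37.RO
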