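import Mathlib

/-!
RO-01 (Niv).  A cosine of a rational multiple of `π` which is an algebraic integer is `0`, `1` or `-1`.

PROOF.  Let `x = cos (π q)`, `z = exp (π q i)`, a root of unity (`z ^ (2 * q.den) = 1`), `x = (z + z⁻¹)/2`.
Take the number field `K = ℚ⟮z⟯ ⊆ ℂ` (or a cyclotomic field).  Let `x'` be the element `(z + z⁻¹)/2` of
`K`; it is integral over `ℤ`.  For each embedding `φ : K →+* ℂ` the number `φ z` is a root of unity, so
`‖φ x'‖ ≤ 1`.  If `x' ≠ 0` then `NumberField.Embeddings.pow_eq_one_of_norm_le_one` (or: the norm is a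
nonzero integer of absolute value `≤ 1`, so all `‖φ x'‖ = 1`, and `pow_eq_one_of_norm_eq_one`) gives
`x' ^ n = 1`, so `|x| = 1` (`x` is real).
(Elementary alternative: `c k = 2 cos (2^k π q)` satisfies `c k - 2 ∈ 4^k ℤ̄` for `k ≥ 2`.)
-/

namespace Pool.Agent.helper37.RO

open Real

theorem cos_integral {q : ℚ} (h : IsIntegral ℤ (Real.cos (π * (q : ℝ)))) :
    Real.cos (π * (q : ℝ)) = 0 ∨ Real.cos (π * (q : ℝ)) = 1 ∨ Real.cos (π * (q : ℝ)) = -1 := by
  by_cases h0 : Real.cos (π * (q : ℝ)) = 0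
  · exact Or.inl h0
  right
  obtain ⟨z, hz⟩ : ∃ z : ℂ, z = Complex.exp ((q : ℂ) * π * Complex.I) := ⟨_, rfl⟩
  have hzpow : z ^ (2 * q.den) = 1 := by
    rw [hz]
    exact Complex.exp_rat_mul_pi_mul_I_pow_two_mul_den q
  have hzint : IsIntegral ℤ z := by
    rw [hz]
    exact Complex.isIntegral_exp_rat_mul_pi_mul_I q
  have hz0 : z ≠ 0 := by
    rw [hz]
    exact Complex.exp_ne_zero _
  have hcos : ((Real.cos (π * (q : ℝ)) : ℝ) : ℂ) = (z + z⁻¹) / 2 := by
    rw [Complex.ofReal_cos, Complex.cos, hz, ← Complex.exp_neg]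
    push_cast
    ring_nf
  have hzQ : IsIntegral ℚ z := hzint.tower_top
  have : FiniteDimensional ℚ (IntermediateField.adjoin ℚ {z}) :=
    IntermediateField.adjoin.finiteDimensional hzQ
  have : NumberField (IntermediateField.adjoin ℚ {z}) := { }
  obtain ⟨g, hg⟩ : ∃ g : IntermediateField.adjoin ℚ {z},
      algebraMap (IntermediateField.adjoin ℚ {z}) ℂ g = z :=
    ⟨IntermediateField.AdjoinSimple.gen ℚ z, IntermediateField.AdjoinSimple.algebraMap_gen ℚ z⟩
  have hinj : Function.Injective (algebraMap (IntermediateField.adjoin ℚ {z}) ℂ) :=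
    (algebraMap (IntermediateField.adjoin ℚ {z}) ℂ).injective
  have hgpow : g ^ (2 * q.den) = 1 := by
    apply hinj
    rw [map_pow, hg, hzpow, map_one]
  have hx : algebraMap (IntermediateField.adjoin ℚ {z}) ℂ ((g + g⁻¹) / 2) =
      ((Real.cos (π * (q : ℝ)) : ℝ) : ℂ) := by
    rw [hcos, map_div₀, map_add, map_inv₀, hg, map_ofNat]
  have hx0 : (g + g⁻¹) / 2 ≠ 0 := by
    intro h1
    rw [h1, map_zero] at hx
    exact h0 (by exact_mod_cast hx.symm)
  have hxi : IsIntegral ℤ ((g + g⁻¹) / 2) := by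
    rw [← isIntegral_algebraMap_iff hinj, hx]
    exact h.map (Complex.ofRealAm.restrictScalars ℤ)
  have hn : ∀ φ : (IntermediateField.adjoin ℚ {z}) →+* ℂ, ‖φ ((g + g⁻¹) / 2)‖ ≤ 1 := by
    intro φ
    have h1 : ‖φ g‖ = 1 := by
      have h8 : ‖φ g‖ ^ (2 * q.den) = 1 := by
        rw [← norm_pow, ← map_pow, hgpow, map_one, norm_one]
      have h9 := q.den_pos
      exact (pow_eq_one_iff_of_nonneg (norm_nonneg _) (by omega)).1 h8
    rw [map_div₀, map_add, map_inv₀, map_ofNat, norm_div]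
    have h2 := norm_add_le (φ g) (φ g)⁻¹
    rw [norm_inv, h1] at h2
    have h3 : ‖(2 : ℂ)‖ = 2 := by simp
    rw [h3]
    linarith
  obtain ⟨n, hn0, hn1⟩ := NumberField.Embeddings.pow_eq_one_of_norm_le_one _ ℂ hx0 hxi hn
  have h4 : (Real.cos (π * (q : ℝ))) ^ n = 1 := by
    have h5 : ((Real.cos (π * (q : ℝ)) : ℝ) : ℂ) ^ n = 1 := by
      rw [← hx, ← map_pow, hn1, map_one]
    exact_mod_cast h5
  have h6 : |Real.cos (π * (q : ℝ))| = 1 := by
    have h7 : |Real.cos (π * (q : ℝ))| ^ n = 1 := by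
      rw [← abs_pow, h4, abs_one]
    exact (pow_eq_one_iff_of_nonneg (abs_nonneg _) (by omega)).1 h7
  exact eq_or_eq_neg_of_abs_eq h6

end Pool.Agent.helper37.RO
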