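import Pool.Agent.helper37.RO.Trf
import Pool.Agent.helper37.RO.Par

/-!
RO-04 (Ntp).  Number theory for the regular triangular pyramids.  `D = a² - 3b² < 0`, `A = a N`,
`B = 2 b N`, (E) `(a + 2δ)^A (b - δ)^B = (a - 2δ)^A (b + δ)^B`.  By `transfer`
(`x1 = a, y1 = 2, x2 = b, y2 = -1`) the same identity holds for every square root `ρ` of `D` in every ring.

(1) `a < 2b` (`a² < 3b²`).
(2) No odd prime `p` divides `2b + a`: `p ∤ b` (coprime).  In `ZMod p` take `ρ = b`: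
`b² = D` because `a² = 4b²`.  The left side of (E) is `(a + 2b)^A 0^B = 0`, the right side
`(a - 2b)^A (2b)^B = (-4b)^A (2b)^B ≠ 0`.
(3) No odd prime `p` divides `2b - a`: `p ∤ b`.  In `ℤ_[p]` take `ρ ≡ b` (`sqrt_odd` with `c = b`; `b² - D = 4b² - a²`).
Let `v` be the valuation, `m = v (2b - a) ≥ 1`.  `(b - ρ)(b + ρ) = (2b - a)(2b + a)`, `b + ρ ≡ 2b` and
`2b + a ≡ 4b` are units: `v (b - ρ) = m`.  `(a - 2ρ)(a + 2ρ) = a² - 4D = 3 (2b - a)(2b + a)` and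
`a + 2ρ ≡ 4b` is a unit: `v (a - 2ρ) = m + v 3`.  (E): `B m = A (m + v 3)`, so
`2 b m = a (m + v 3)`.  If `p ≠ 3`: `2b = a`, contradiction.  If `p = 3`: `2 b m = a (m + 1)`; with
`d = 2b - a`: `d (m + 1) = 2b` and `a = d m`, so `d ∣ gcd (a, 2b) ∣ 2`, but `3 ∣ d`, contradiction.
(4) `par`: `a = 2(2^m - 1)`, `b = 2^m + 1`, `m ≥ 1`; `a² < 3b²` is `(2^m)² + 1 < 14 · 2^m`, so `m ≤ 3`:
`(a, b, D) = (2, 3, -23), (6, 5, -39), (14, 9, -47)`; `D ≡ 1` mod `8`.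
(5) `ρ ∈ ℤ_[2]` with `ρ² = D` (`sqrt_two`), `ρ` is a unit.  `(b - ρ)(b + ρ) = 4b² - a² = 2^(m+4)`; both factors are
even, their sum is `2b`, `v (2b) = 1`: the valuations are `{1, m+3}`.
`(a - 2ρ)(a + 2ρ) = 3 · 2^(m+4)`; `a ± 2ρ = 2 (a/2 ± ρ)` with `a/2`, `ρ` odd, so both valuations are
`≥ 2`, and the sum `2a` has valuation `2`: they are `{2, m+2}`.  (E) gives
`A (v (a+2ρ) - v (a-2ρ)) = B (v (b+ρ) - v (b-ρ))`, in absolute values `A m = B (m+2)`,
`a m = 2 b (m + 2)`, contradiction to `a < 2b`.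
-/

namespace Pool.Agent.helper37.RO

private theorem ntp_int_norm_one {p : ℕ} [hp : Fact p.Prime] {k : ℤ} (h : ¬ (p : ℤ) ∣ k) :
    ‖(k : ℤ_[p])‖ = 1 := by
  refine le_antisymm (PadicInt.norm_le_one _) ?_
  by_contra hlt
  exact h ((PadicInt.norm_int_lt_one_iff_dvd k).1 (not_le.1 hlt))

private theorem ntp_norm_add {p : ℕ} [hp : Fact p.Prime] {x y : ℤ_[p]} (hx : ‖x‖ = 1)
    (hy : ‖y‖ < 1) : ‖x + y‖ = 1 := by
  rw [PadicInt.norm_add_eq_max_of_ne (by rw [hx]; exact hy.ne'), hx, max_eq_left hy.le]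

private theorem ntp_norm_nat {p : ℕ} [hp : Fact p.Prime] {d : ℕ} (hd : d ≠ 0) :
    ‖(d : ℤ_[p])‖ = ((p : ℝ)⁻¹) ^ (padicValNat p d) := by
  have h := PadicInt.norm_eq_zpow_neg_valuation (p := p) (x := (d : ℤ_[p]))
    (by exact_mod_cast hd)
  have hv : ((d : ℤ_[p]).valuation : ℤ) = (padicValNat p d : ℤ) := by
    rw [← PadicInt.valuation_coe, PadicInt.coe_natCast, Padic.valuation_natCast]
  rw [h, hv, zpow_neg, zpow_natCast, inv_pow]

/-- The factors of `c² - ρ²` at the prime two. -/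
private theorem ntp_two {k : ℕ} {c : ℤ} (hc : ¬ (2 : ℤ) ∣ c) {ρ z : ℤ_[2]} (hz : ‖z‖ = 1)
    (h : ((c : ℤ_[2]) - ρ) * ((c : ℤ_[2]) + ρ) = 2 ^ (k + 2) * z) :
    (‖(c : ℤ_[2]) - ρ‖ = (1 / 2) ^ 1 ∧ ‖(c : ℤ_[2]) + ρ‖ = (1 / 2) ^ (k + 1)) ∨
    (‖(c : ℤ_[2]) - ρ‖ = (1 / 2) ^ (k + 1) ∧ ‖(c : ℤ_[2]) + ρ‖ = (1 / 2) ^ 1) := by
  have h2 : ‖(2 : ℤ_[2])‖ = 1 / 2 := by
    have := PadicInt.norm_p (p := 2)
    simpa using this
  set x := (c : ℤ_[2]) - ρ with hx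
  set y := (c : ℤ_[2]) + ρ with hy
  have hprod : ‖x‖ * ‖y‖ = (1 / 2) ^ (k + 2) := by
    rw [← norm_mul, h, norm_mul, norm_pow, hz, h2, mul_one]
  have hsum : x + y = 2 * (c : ℤ_[2]) := by rw [hx, hy]; ring
  have hc1 : ‖(c : ℤ_[2])‖ = 1 := ntp_int_norm_one (p := 2) (by exact_mod_cast hc)
  have hs : ‖x + y‖ = 1 / 2 := by rw [hsum, norm_mul, h2, hc1, mul_one]
  -- norm one of one factor implies norm one of the other one
  have key : ∀ u v : ℤ_[2], ‖u + v‖ = 1 / 2 → ‖u‖ = 1 → ‖v‖ = 1 := by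
    intro u v huv hu
    have : v = -(u) + (u + v) := by ring
    rw [this]
    exact ntp_norm_add (by rw [norm_neg, hu]) (by rw [huv]; norm_num)
  have hlt : ((1 : ℝ) / 2) ^ (k + 2) < 1 := by
    apply pow_lt_one₀ (by norm_num) (by norm_num) (by omega)
  have hx1 : ‖x‖ < 1 := by
    refine lt_of_le_of_ne (PadicInt.norm_le_one _) ?_
    intro hx1
    have hy1 := key x y hs hx1
    rw [hx1, hy1] at hprod
    linarith
  have hy1 : ‖y‖ < 1 := by
    refine lt_of_le_of_ne (PadicInt.norm_le_one _) ?_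
    intro hy1
    have hx1 := key y x (by rw [add_comm]; exact hs) hy1
    rw [hx1, hy1] at hprod
    linarith
  have hhalf : ∀ u : ℤ_[2], ‖u‖ < 1 → ‖u‖ ≤ 1 / 2 := by
    intro u hu
    obtain ⟨w, hw⟩ := (PadicInt.norm_lt_one_iff_dvd u).1 hu
    rw [hw, norm_mul]
    have : ‖((2 : ℕ) : ℤ_[2])‖ = 1 / 2 := by simpa using h2
    rw [this]
    have := PadicInt.norm_le_one w
    linarith
  have hxh := hhalf x hx1
  have hyh := hhalf y hy1
  have hmax : (1 : ℝ) / 2 ≤ max ‖x‖ ‖y‖ := by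
    rw [← hs]
    exact PadicInt.nonarchimedean x y
  have e : ((1 : ℝ) / 2) ^ (k + 2) = (1 / 2) * (1 / 2) ^ (k + 1) := by rw [pow_succ']
  rw [e] at hprod
  rcases le_max_iff.1 hmax with h' | h'
  · left
    have hx' : ‖x‖ = 1 / 2 := le_antisymm hxh h'
    rw [hx'] at hprod
    refine ⟨by rw [hx', pow_one], ?_⟩
    exact mul_left_cancel₀ (by norm_num) hprod
  · right
    have hy' : ‖y‖ = 1 / 2 := le_antisymm hyh h'
    rw [hy', mul_comm] at hprod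
    refine ⟨?_, by rw [hy', pow_one]⟩
    exact mul_left_cancel₀ (by norm_num) hprod

/-- No odd prime divides `2b + a`. -/
private theorem ntp_plus {a b N : ℕ} (hN : 0 < N) (ha : 0 < a) (hab : Nat.Coprime a b)
    (hE : ∀ (p : ℕ) [Fact p.Prime] (ρ : ZMod p), ρ * ρ = (((a : ℤ) ^ 2 - 3 * (b : ℤ) ^ 2 : ℤ) : ZMod p) →
      ((a : ZMod p) + 2 * ρ) ^ (a * N) * ((b : ZMod p) - ρ) ^ (2 * b * N)
        = ((a : ZMod p) - 2 * ρ) ^ (a * N) * ((b : ZMod p) + ρ) ^ (2 * b * N))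
    {p : ℕ} (hp : p.Prime) (hd : p ∣ 2 * b + a) : p = 2 := by
  by_contra h2
  have : Fact p.Prime := ⟨hp⟩
  have hpb : ¬ p ∣ b := by
    intro hb
    have : p ∣ a := (Nat.dvd_add_right (hb.mul_left 2)).1 hd
    have := Nat.dvd_gcd this hb
    rw [hab] at this
    exact hp.one_lt.ne' (Nat.dvd_one.1 this)
  have hb0 : (b : ZMod p) ≠ 0 := by
    rw [Ne, ZMod.natCast_eq_zero_iff]
    exact hpb
  have h20 : (2 : ZMod p) ≠ 0 := by
    intro h
    have : ((2 : ℕ) : ZMod p) = 0 := by exact_mod_cast h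
    rw [ZMod.natCast_eq_zero_iff] at this
    exact h2 ((Nat.prime_dvd_prime_iff_eq hp Nat.prime_two).1 this)
  have ha0 : (a : ZMod p) = -(2 * b) := by
    have : ((2 * b + a : ℕ) : ZMod p) = 0 := by
      rw [ZMod.natCast_eq_zero_iff]
      exact hd
    push_cast at this
    linear_combination this
  have h := hE p (b : ZMod p) (by push_cast; rw [ha0]; ring)
  rw [ha0] at h
  have e1 : -(2 * (b : ZMod p)) + 2 * b = 0 := by ring
  have e2 : -(2 * (b : ZMod p)) - 2 * b = -(2 * (2 * b)) := by ring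
  rw [e1, zero_pow (Nat.mul_ne_zero ha.ne' hN.ne'), zero_mul, e2] at h
  have h3 : (b : ZMod p) + b = 2 * b := by ring
  rw [h3] at h
  have := mul_ne_zero (pow_ne_zero (a * N) (neg_ne_zero.2 (mul_ne_zero h20 (mul_ne_zero h20 hb0))))
    (pow_ne_zero (2 * b * N) (mul_ne_zero h20 hb0))
  exact this h.symm

/-- No odd prime divides `2b - a`. -/
private theorem ntp_minus {a b N : ℕ} (hN : 0 < N) (hab : Nat.Coprime a b)
    (hlt : a < 2 * b)
    (hE : ∀ (p : ℕ) [Fact p.Prime] (ρ : ℤ_[p]), ρ * ρ = (((a : ℤ) ^ 2 - 3 * (b : ℤ) ^ 2 : ℤ) : ℤ_[p]) →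
      ((a : ℤ_[p]) + 2 * ρ) ^ (a * N) * ((b : ℤ_[p]) - ρ) ^ (2 * b * N)
        = ((a : ℤ_[p]) - 2 * ρ) ^ (a * N) * ((b : ℤ_[p]) + ρ) ^ (2 * b * N))
    {p : ℕ} (hp : p.Prime) (hd : p ∣ 2 * b - a) : p = 2 := by
  by_contra h2
  have : Fact p.Prime := ⟨hp⟩
  have hpb : ¬ p ∣ b := by
    intro hb
    have h1 : p ∣ 2 * b := hb.mul_left 2
    have : p ∣ a := by
      have := (Nat.dvd_sub_iff_right hlt.le h1).1 hd
      exact this
    have := Nat.dvd_gcd this hb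
    rw [hab] at this
    exact hp.one_lt.ne' (Nat.dvd_one.1 this)
  obtain ⟨d, hd0⟩ : ∃ d : ℕ, 2 * b = a + d := ⟨2 * b - a, by omega⟩
  have hdd : 2 * b - a = d := by omega
  have hdpos : 0 < d := by omega
  rw [hdd] at hd
  -- the square root
  have hsq : (p : ℤ) ∣ (b : ℤ) ^ 2 - ((a : ℤ) ^ 2 - 3 * (b : ℤ) ^ 2) := by
    have e : (b : ℤ) ^ 2 - ((a : ℤ) ^ 2 - 3 * (b : ℤ) ^ 2) = (d : ℤ) * (2 * b + a) := by
      have : (2 : ℤ) * b = a + d := by exact_mod_cast hd0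
      linear_combination (2 * (b : ℤ) + a) * this
    rw [e]
    exact (Int.natCast_dvd_natCast.2 hd).mul_right _
  obtain ⟨ρ, hρ, hρb⟩ := sqrt_odd (p := p) h2 hsq (by exact_mod_cast hpb)
  have hbn : ‖(b : ℤ_[p])‖ = 1 := by
    have := ntp_int_norm_one (p := p) (k := (b : ℤ)) (by exact_mod_cast hpb)
    simpa using this
  have h2n : ‖(2 : ℤ_[p])‖ = 1 := by
    have h2p : ¬ p ∣ 2 := fun h => h2 ((Nat.prime_dvd_prime_iff_eq hp Nat.prime_two).1 h)
    have := ntp_int_norm_one (p := p) (k := (2 : ℤ)) (by exact_mod_cast h2p)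
    simpa using this
  have hdn : ‖(d : ℤ_[p])‖ < 1 := by
    have := (PadicInt.norm_int_lt_one_iff_dvd (p := p) (d : ℤ)).2 (Int.natCast_dvd_natCast.2 hd)
    simpa using this
  have hρb' : ‖ρ - (b : ℤ_[p])‖ < 1 := by simpa using hρb
  have hd' : (2 : ℤ_[p]) * b = a + d := by exact_mod_cast hd0
  have n1 : ‖(b : ℤ_[p]) + ρ‖ = 1 := by
    have e : (b : ℤ_[p]) + ρ = 2 * b + (ρ - b) := by ring
    rw [e]
    exact ntp_norm_add (by rw [norm_mul, h2n, hbn, mul_one]) hρb'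
  have h4n : ‖(2 : ℤ_[p]) * (2 * b)‖ = 1 := by
    rw [norm_mul, norm_mul, h2n, hbn, mul_one, mul_one]
  have n2 : ‖(a : ℤ_[p]) + 2 * ρ‖ = 1 := by
    have e : (a : ℤ_[p]) + 2 * ρ = 2 * (2 * b) + (-(d : ℤ_[p]) + 2 * (ρ - b)) := by
      linear_combination (-1 : ℤ_[p]) * hd'
    rw [e]
    exact ntp_norm_add h4n (PadicInt.norm_lt_one_add (by rw [norm_neg]; exact hdn)
      (by rw [norm_mul, h2n, one_mul]; exact hρb'))
  have n3 : ‖(2 : ℤ_[p]) * b + a‖ = 1 := by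
    have e : (2 : ℤ_[p]) * b + a = 2 * (2 * b) + (-(d : ℤ_[p])) := by
      linear_combination (-1 : ℤ_[p]) * hd'
    rw [e]
    exact ntp_norm_add h4n (by rw [norm_neg]; exact hdn)
  push_cast at hρ
  have n4 : ‖(b : ℤ_[p]) - ρ‖ = ‖(d : ℤ_[p])‖ := by
    have e : ((b : ℤ_[p]) - ρ) * (b + ρ) = d * (2 * b + a) := by
      linear_combination (-1 : ℤ_[p]) * hρ + (2 * (b : ℤ_[p]) + a) * hd'
    have := congrArg norm e
    rwa [norm_mul, norm_mul, n1, n3, mul_one, mul_one] at this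
  have n5 : ‖(a : ℤ_[p]) - 2 * ρ‖ = ‖(3 : ℤ_[p])‖ * ‖(d : ℤ_[p])‖ := by
    have e : ((a : ℤ_[p]) - 2 * ρ) * (a + 2 * ρ) = 3 * d * (2 * b + a) := by
      linear_combination (-4 : ℤ_[p]) * hρ + 3 * (2 * (b : ℤ_[p]) + a) * hd'
    have := congrArg norm e
    rwa [norm_mul, norm_mul, norm_mul, n2, n3, mul_one, mul_one] at this
  have h := congrArg norm (hE p ρ (by push_cast; exact hρ))
  rw [norm_mul, norm_mul, norm_pow, norm_pow, norm_pow, norm_pow, n1, n2, n4, n5, one_pow, one_pow,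
    one_mul, mul_one, ntp_norm_nat hdpos.ne'] at h
  have hpR : (1 : ℝ) < p := by exact_mod_cast hp.one_lt
  have hinj : ∀ s t : ℕ, ((p : ℝ)⁻¹) ^ s = ((p : ℝ)⁻¹) ^ t → s = t := by
    intro s t hst
    refine pow_right_injective₀ (inv_pos.2 (by linarith)) ?_ hst
    intro h1
    rw [inv_eq_one] at h1
    linarith
  set m := padicValNat p d with hm
  by_cases hp3 : p = 3
  · have h3n : ‖(3 : ℤ_[p])‖ = ((p : ℝ)⁻¹) ^ 1 := by
      have := PadicInt.norm_p (p := p)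
      subst hp3
      rw [pow_one]
      simpa using this
    rw [h3n, ← pow_add, ← pow_mul, ← pow_mul] at h
    have h' := hinj _ _ h
    have h5 : m * (2 * b) = (1 + m) * a := by
      have : (m * (2 * b)) * N = ((1 + m) * a) * N := by
        rw [← mul_assoc] at h'
        nlinarith [h']
      exact Nat.eq_of_mul_eq_mul_right hN this
    have h6 : a = m * d := by
      have : m * (a + d) = (1 + m) * a := by rw [← hd0]; exact h5
      nlinarith [this]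
    have h7 : d ∣ a := ⟨m, by rw [h6]; ring⟩
    have h8 : d ∣ 2 * b := by rw [hd0]; exact h7.add dvd_rfl
    have h9 : d ∣ 2 := by
      have hco : Nat.Coprime d b := Nat.Coprime.coprime_dvd_left h7 hab
      exact hco.dvd_of_dvd_mul_right h8
    have h10 : p ∣ 2 := hd.trans h9
    exact h2 ((Nat.prime_dvd_prime_iff_eq hp Nat.prime_two).1 h10)
  · have h3n : ‖(3 : ℤ_[p])‖ = 1 := by
      have h3p : ¬ p ∣ 3 := fun h => hp3 ((Nat.prime_dvd_prime_iff_eq hp Nat.prime_three).1 h)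
      have := ntp_int_norm_one (p := p) (k := (3 : ℤ)) (by exact_mod_cast h3p)
      simpa using this
    rw [h3n, one_mul, ← pow_mul, ← pow_mul] at h
    have h' := hinj _ _ h
    have hmpos : 0 < m := by
      rw [hm]
      exact Nat.pos_of_ne_zero ((dvd_iff_padicValNat_ne_zero hdpos.ne').1 hd)
    have h5 : 2 * b * N = a * N := Nat.eq_of_mul_eq_mul_left hmpos h'
    have h6 : 2 * b = a := Nat.eq_of_mul_eq_mul_right hN h5
    omega

theorem no_pyramid {a b N : ℕ} (ha : 0 < a) (hb : 0 < b) (hN : 0 < N) (hab : Nat.Coprime a b)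
    (hlt : a ^ 2 < 3 * b ^ 2) (δ : ℂ) (hδ : δ * δ = (a : ℂ) ^ 2 - 3 * (b : ℂ) ^ 2)
    (h : ((a : ℂ) + 2 * δ) ^ (a * N) * ((b : ℂ) - δ) ^ (2 * b * N)
      = ((a : ℂ) - 2 * δ) ^ (a * N) * ((b : ℂ) + δ) ^ (2 * b * N)) : False := by
  have hD : ((a : ℤ) ^ 2 - 3 * (b : ℤ) ^ 2 : ℤ) < 0 := by
    have : ((a : ℤ)) ^ 2 < 3 * (b : ℤ) ^ 2 := by exact_mod_cast hlt
    linarith
  have hE : ∀ (R : Type) [CommRing R] (ρ : R),
      ρ * ρ = (((a : ℤ) ^ 2 - 3 * (b : ℤ) ^ 2 : ℤ) : R) →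
      ((a : R) + 2 * ρ) ^ (a * N) * ((b : R) - ρ) ^ (2 * b * N)
        = ((a : R) - 2 * ρ) ^ (a * N) * ((b : R) + ρ) ^ (2 * b * N) := by
    intro R _ ρ hρ
    have := transfer hD ρ hρ δ (by rw [hδ]; push_cast; ring) (a : ℤ) 2 (b : ℤ) (-1) (a * N)
      (2 * b * N) (by
        push_cast
        have e1 : (b : ℂ) + -1 * δ = b - δ := by ring
        have e2 : (b : ℂ) - -1 * δ = b + δ := by ring
        rw [e1, e2]
        exact h)
    push_cast at this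
    have e1 : (b : R) + -1 * ρ = b - ρ := by ring
    have e2 : (b : R) - -1 * ρ = b + ρ := by ring
    rw [e1, e2] at this
    exact this
  have hab2 : a < 2 * b := by
    by_contra hcon
    push Not at hcon
    have : (2 * b) ^ 2 ≤ a ^ 2 := Nat.pow_le_pow_left hcon 2
    nlinarith [Nat.pow_lt_pow_left hb (n := 2) (by norm_num)]
  obtain ⟨m, hm1, ham, hbm⟩ := par ha hab hab2
    (fun p hp hd => ntp_minus hN hab hab2 (fun p _ ρ hρ => hE ℤ_[p] ρ hρ) hp hd)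
    (fun p hp hd => ntp_plus hN ha hab (fun p _ ρ hρ => hE (ZMod p) ρ hρ) hp hd)
  have hm3 : m ≤ 3 := by
    by_contra hcon
    push Not at hcon
    have h16 : 2 ^ 4 ≤ 2 ^ m := Nat.pow_le_pow_right (by norm_num) hcon
    obtain ⟨t, ht⟩ : ∃ t : ℕ, 2 ^ m = t + 16 := ⟨2 ^ m - 16, by omega⟩
    have ha' : a = 2 * (t + 15) := by rw [ham, ht]; omega
    have hb' : b = t + 17 := by rw [hbm, ht]
    rw [ha', hb'] at hlt
    nlinarith [hlt]
  -- the prime two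
  have main : ∀ (c : ℤ) (D : ℤ), D = (a : ℤ) ^ 2 - 3 * (b : ℤ) ^ 2 → D % 8 = 1 → (a : ℤ) = 2 * c →
      ¬ (2 : ℤ) ∣ c → ¬ (2 : ℤ) ∣ (b : ℤ) → (b : ℤ) ^ 2 - D = 2 ^ (m + 4) →
      c ^ 2 - D = 3 * 2 ^ (m + 2) → False := by
    intro c D hDD hD8 hac hc hb2 e1 e2
    obtain ⟨ρ, hρ⟩ := sqrt_two hD8
    have hz3 : ‖(3 : ℤ_[2])‖ = 1 := by
      have := ntp_int_norm_one (p := 2) (k := (3 : ℤ)) (by norm_num)
      simpa using this
    have t1 := ntp_two (k := m + 2) hb2 (ρ := ρ) (z := 1) (by simp) (by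
      have : ((b : ℤ_[2])) ^ 2 - (D : ℤ_[2]) = 2 ^ (m + 4) := by exact_mod_cast e1
      push_cast
      rw [show m + 2 + 2 = m + 4 by ring]
      linear_combination this - hρ)
    have t2 := ntp_two (k := m) hc (ρ := ρ) (z := 3) hz3 (by
      have : ((c : ℤ_[2])) ^ 2 - (D : ℤ_[2]) = 3 * 2 ^ (m + 2) := by exact_mod_cast e2
      linear_combination this - hρ)
    have h' := hE ℤ_[2] ρ (by rw [← hDD]; exact hρ)
    have hac' : (a : ℤ_[2]) = 2 * c := by exact_mod_cast hac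
    have e3 : (a : ℤ_[2]) + 2 * ρ = 2 * (c + ρ) := by rw [hac']; ring
    have e4 : (a : ℤ_[2]) - 2 * ρ = 2 * (c - ρ) := by rw [hac']; ring
    rw [e3, e4, mul_pow, mul_pow] at h'
    have h'' : ((c : ℤ_[2]) + ρ) ^ (a * N) * ((b : ℤ_[2]) - ρ) ^ (2 * b * N)
        = ((c : ℤ_[2]) - ρ) ^ (a * N) * ((b : ℤ_[2]) + ρ) ^ (2 * b * N) := by
      apply mul_left_cancel₀ (pow_ne_zero (a * N) (by norm_num : (2 : ℤ_[2]) ≠ 0))
      linear_combination h'
    have h3 := congrArg norm h''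
    rw [norm_mul, norm_mul, norm_pow, norm_pow, norm_pow, norm_pow] at h3
    have hinj : ∀ s t : ℕ, ((1 : ℝ) / 2) ^ s = (1 / 2) ^ t → s = t := fun s t hst =>
      pow_right_injective₀ (by norm_num) (by norm_num) hst
    push_cast at t1
    have hA : 0 < a * N := Nat.mul_pos ha hN
    have hB : 0 < 2 * b * N := Nat.mul_pos (by omega) hN
    have hcan : ∀ s t : ℕ, s * N = t * N → s = t := fun s t => Nat.eq_of_mul_eq_mul_right hN
    rcases t1 with ⟨p1, p2⟩ | ⟨p1, p2⟩ <;> rcases t2 with ⟨q1, q2⟩ | ⟨q1, q2⟩ <;>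
      rw [p1, p2, q1, q2, ← pow_mul, ← pow_mul, ← pow_mul, ← pow_mul, ← pow_add, ← pow_add] at h3 <;>
      have h4 := hinj _ _ h3
    · -- (m+1) A + B = A + (m+3) B
      have h5 := hcan ((m + 1) * a + 2 * b) (a + (m + 3) * (2 * b)) (by nlinarith [h4])
      nlinarith [h5, hab2, hm1]
    · nlinarith [h4, hA, hB, hm1, Nat.mul_pos hm1 hA, Nat.mul_pos hm1 hB]
    · nlinarith [h4, hA, hB, hm1, Nat.mul_pos hm1 hA, Nat.mul_pos hm1 hB]
    · have h5 := hcan (a + (m + 3) * (2 * b)) ((m + 1) * a + 2 * b) (by nlinarith [h4])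
      nlinarith [h5, hab2, hm1]
  have hmc : m = 1 ∨ m = 2 ∨ m = 3 := by omega
  rcases hmc with rfl | rfl | rfl
  · norm_num at ham hbm
    subst ham hbm
    exact main 1 (-23) (by norm_num) (by norm_num) (by norm_num) (by norm_num) (by norm_num)
      (by norm_num) (by norm_num)
  · norm_num at ham hbm
    subst ham hbm
    exact main 3 (-39) (by norm_num) (by norm_num) (by norm_num) (by norm_num) (by norm_num)
      (by norm_num) (by norm_num)
  · norm_num at ham hbm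
    subst ham hbm
    exact main 7 (-47) (by norm_num) (by norm_num) (by norm_num) (by norm_num) (by norm_num)
      (by norm_num) (by norm_num)

end Pool.Agent.helper37.RO
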