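import Pool.Agent.helper37.RO.Niv
import Pool.Agent.helper37.RO.Ntp
import Pool.Agent.helper37.RO.Gep
import Pool.Agent.helper37.RO.Dic
import Pool.Agent.helper37.NP.ZLe
import Pool.Agent.helper37.NP.V12

/-!
RO-09 (Pyr).  A regular triangular pyramid is never scissors congruent to a cube.

PROOF.  `l = ![a, a, b, a, b, b] = a • iv u + b • iv v`, `u = ![1,1,0,1,0,0]`, `v = ![0,0,1,0,1,1]`,
`t = ang l` (`ang_lenv`), `dotp (iv u) t = 3α`, `dotp (iv v) t = 3β` (`pyr_angles`).  `dehn_data`, `rat_or`.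
(1) `3α, 3β ∈ πℚ`: so `α = π q1`, `β = π q2`.  `w = sin² α = 1 - cos² α` satisfies
`3w = 2 + 2cos β` (from `2cos β = 1 - 3cos² α`) and `4w = 2 - 2cos 2α`; `2cos β`, `2cos 2α` are
integral over `ℤ` (sums of two roots of unity; for example from `exp`, or a lemma in Mathlib on
`2 * cos (rational * π)`), so `w = 4w - 3w` is integral and
`cos 2α = 1 - 2w` is integral.  `cos_integral`: `cos 2α ∈ {0, 1, -1}`.  `cos 2α = 0`: `w = 1/2` is not
integral.  `cos 2α = 1`: `α ∈ πℤ`, impossible.  `cos 2α = -1`: `cos α = 0`, `cos β = 1/2`,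
`β = π/3`, but `3β > π` (`ev_pos` at the apex: edges `2, 4, 5`).
(2) `a = c x`, `b = c y`, `x, y` coprime, `3 x α + 3 y β = π q`.  `l = c • ![x, x, y, x, y, y]`, so the angles
are those of `l' = ![x, x, y, x, y, y]` (`ang_smul`, `smul_mem_T` with `1/c`).  `pyr_angles` for `l'`:
`x² < 3y²`, `δ = √(3y² - x²) i`, `exp (2iα) (x - 2δ) = x + 2δ`, `exp (iβ) (y + δ) = -(y - δ)`.
With `N = 3 * q.den`: `2 N (x α + y β) ∈ 2πℤ`, so `(exp (2iα))^(xN) (exp (iβ))^(2yN) = 1`, hence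
`(x + 2δ)^(xN) (y - δ)^(2yN) = (x - 2δ)^(xN) (y + δ)^(2yN)` (the sign disappears, the exponent `2yN` is even).
`no_pyramid`.
-/

namespace Pool.Agent.helper37.RO

open Real Pool.Agent.helper37.NP Pool.Agent.helper37.NL Pool.Agent.Helper93.Tet

/-- The case of two rational angles. -/
private theorem pyr_rat {α β : ℝ} (hα : 0 < α) (hα' : α < π) (hβ : 0 < β) (hβ' : β < π)
    (hc : 2 * cos β = 1 - 3 * cos α ^ 2) (hev : π < 3 * β) {q1 q2 : ℚ}
    (h1 : 3 * α = π * (q1 : ℝ)) (h2 : 3 * β = π * (q2 : ℝ)) : False := by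
  have e1 : 2 * α = ((2 * q1 / 3 : ℚ) : ℝ) * π := by
    push_cast
    linarith
  have e2 : β = ((q2 / 3 : ℚ) : ℝ) * π := by
    push_cast
    linarith
  have i1 : IsIntegral ℤ (2 * cos (2 * α)) := by
    rw [e1]
    exact Real.isIntegral_two_mul_cos_rat_mul_pi _
  have i2 : IsIntegral ℤ (2 * cos β) := by
    rw [e2]
    exact Real.isIntegral_two_mul_cos_rat_mul_pi _
  have hw : IsIntegral ℤ (1 - cos α ^ 2) := by
    have h3 : 1 - cos α ^ 2 = -(2 * cos (2 * α)) - 2 * cos β := by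
      rw [Real.cos_two_mul, hc]
      ring
    rw [h3]
    exact i1.neg.sub i2
  have hi : IsIntegral ℤ (cos (2 * α)) := by
    have h3 : cos (2 * α) = 1 - ((1 - cos α ^ 2) + (1 - cos α ^ 2)) := by
      rw [Real.cos_two_mul]
      ring
    rw [h3]
    exact isIntegral_one.sub (hw.add hw)
  have e3 : 2 * α = π * ((2 * q1 / 3 : ℚ) : ℝ) := by rw [e1, mul_comm]
  have h4 := cos_integral (q := 2 * q1 / 3) (by rw [← e3]; exact hi)
  rw [← e3, Real.cos_two_mul] at h4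
  rcases h4 with h4 | h4 | h4
  · have h5 : 1 - cos α ^ 2 = ((1 / 2 : ℚ) : ℝ) := by
      push_cast
      linarith
    rw [h5, IsIntegral.ratCast_iff] at hw
    obtain ⟨n, hn⟩ := IsIntegrallyClosed.algebraMap_eq_of_integral hw
    have hn' : ((n : ℤ) : ℚ) = 1 / 2 := by simpa using hn
    have h6 : (2 * n : ℤ) = 1 := by
      have : ((2 * n : ℤ) : ℚ) = 1 := by
        push_cast
        rw [hn']
        norm_num
      exact_mod_cast this
    omega
  · have h5 : 0 < sin α := Real.sin_pos_of_pos_of_lt_pi hα hα'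
    have h6 := Real.sin_sq_add_cos_sq α
    have h7 : 0 < sin α ^ 2 := by positivity
    linarith
  · have h5 : cos β = cos (π / 3) := by
      rw [Real.cos_pi_div_three]
      linarith
    have h6 : β = π / 3 :=
      Real.injOn_cos ⟨hβ.le, hβ'.le⟩ ⟨by positivity, by linarith [Real.pi_pos]⟩ h5
    linarith

theorem pyr_ne {A B C D : E} (h : AffineIndependent ℝ ![A, B, C, D]) {a b : ℝ}
    (hl : lenv A B C D = ![a, a, b, a, b, b]) : dehn A B C D ≠ 0 := by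
  intro hD
  obtain ⟨k, s, r, hs, hsp, hr⟩ := dehn_data hD
  have hT : (![a, a, b, a, b, b] : V6) ∈ T := hl ▸ lenv_mem h
  have hang : angv A B C D = ang ![a, a, b, a, b, b] := by rw [← ang_lenv h, hl]
  obtain ⟨ha, hb, hab, t1, t3, t4, t5, hcos, -, -⟩ := pyr_angles hT
  set t : V6 := ang ![a, a, b, a, b, b] with ht
  rw [hang] at hr
  have hl' : (![a, a, b, a, b, b] : V6)
      = a • iv ![1, 1, 0, 1, 0, 0] + b • iv ![0, 0, 1, 0, 1, 1] := by
    funext e
    fin_cases e <;> simp [iv]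
  rw [hl, hl'] at hsp
  have hu : dotp (iv ![1, 1, 0, 1, 0, 0]) t = 3 * t 0 := by
    simp [dotp, iv, t1, t3]
    ring
  have hv : dotp (iv ![0, 0, 1, 0, 1, 1]) t = 3 * t 2 := by
    simp [dotp, iv, t4, t5]
    ring
  rcases rat_or s r hs hr ha hb hsp with ⟨q1, q2, h1, h2⟩ | ⟨x, y, c, q, hx, hy, hco, hc, hax, hby, hq⟩
  · rw [hu] at h1
    rw [hv] at h2
    have hev := ev_pos hT 3
    have hev' : 0 < t 2 + t 4 + t 5 - π := hev
    rw [t4, t5] at hev'
    exact pyr_rat (ang_pos hT 0) (ang_lt hT 0) (ang_pos hT 2) (ang_lt hT 2) hcos (by linarith)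
      h1 h2
  · rw [hu, hv] at hq
    have hll : (![a, a, b, a, b, b] : V6)
        = c • (![(x : ℝ), (x : ℝ), (y : ℝ), (x : ℝ), (y : ℝ), (y : ℝ)] : V6) := by
      funext e
      fin_cases e <;> simp [hax, hby]
    have hT' : (![(x : ℝ), (x : ℝ), (y : ℝ), (x : ℝ), (y : ℝ), (y : ℝ)] : V6) ∈ T := by
      have h1 := smul_mem_T hT (inv_pos.2 hc)
      rw [hll, smul_smul, inv_mul_cancel₀ hc.ne', one_smul] at h1
      exact h1
    have htt : t = ang ![(x : ℝ), (x : ℝ), (y : ℝ), (x : ℝ), (y : ℝ), (y : ℝ)] := by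
      rw [ht, hll, ang_smul hc]
    obtain ⟨-, -, hxy, -, -, -, -, -, hE1, hE2⟩ := pyr_angles hT'
    rw [← htt] at hE1 hE2
    set δ : ℂ := √(3 * (y : ℝ) ^ 2 - (x : ℝ) ^ 2) * Complex.I with hδ
    have hδ2 : δ * δ = (x : ℂ) ^ 2 - 3 * (y : ℂ) ^ 2 := by
      have h1 : √(3 * (y : ℝ) ^ 2 - (x : ℝ) ^ 2) * √(3 * (y : ℝ) ^ 2 - (x : ℝ) ^ 2)
          = 3 * (y : ℝ) ^ 2 - (x : ℝ) ^ 2 := Real.mul_self_sqrt (by linarith)
      have h2 : ((√(3 * (y : ℝ) ^ 2 - (x : ℝ) ^ 2) : ℝ) : ℂ)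
          * ((√(3 * (y : ℝ) ^ 2 - (x : ℝ) ^ 2) : ℝ) : ℂ) = 3 * (y : ℂ) ^ 2 - (x : ℂ) ^ 2 := by
        exact_mod_cast congrArg (fun z : ℝ => (z : ℂ)) h1
      calc δ * δ = ((√(3 * (y : ℝ) ^ 2 - (x : ℝ) ^ 2) : ℝ) : ℂ)
          * ((√(3 * (y : ℝ) ^ 2 - (x : ℝ) ^ 2) : ℝ) : ℂ) * (Complex.I * Complex.I) := by
            rw [hδ]; ring
        _ = _ := by rw [h2, Complex.I_mul_I]; ring
    have hqd : (q : ℝ) * (q.den : ℝ) = (q.num : ℝ) := by
      exact_mod_cast congrArg (fun z : ℚ => (z : ℝ)) (Rat.mul_den_eq_num q)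
    have hsum : ((3 * q.den : ℕ) : ℝ) * ((x : ℝ) * t 0 + (y : ℝ) * t 2) = π * (q.num : ℝ) := by
      rw [← hqd]
      push_cast
      linear_combination (q.den : ℝ) * hq
    have hone : Complex.exp (2 * (t 0 : ℂ) * Complex.I) ^ (x * (3 * q.den))
        * Complex.exp ((t 2 : ℂ) * Complex.I) ^ (2 * y * (3 * q.den)) = 1 := by
      rw [← Complex.exp_nat_mul, ← Complex.exp_nat_mul, ← Complex.exp_add]
      rw [Complex.exp_eq_one_iff]
      refine ⟨q.num, ?_⟩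
      have h1 : (((3 * q.den : ℕ) : ℝ) : ℂ) * ((x : ℂ) * (t 0 : ℂ) + (y : ℂ) * (t 2 : ℂ))
          = (π : ℂ) * (q.num : ℂ) := by
        exact_mod_cast congrArg (fun z : ℝ => (z : ℂ)) hsum
      push_cast at h1 ⊢
      linear_combination 2 * Complex.I * h1
    have hN : 0 < 3 * q.den := Nat.mul_pos (by norm_num) q.pos
    refine no_pyramid hx hy hN hco (by exact_mod_cast hxy) δ hδ2 ?_
    have hE1' : ((x : ℂ) + 2 * δ) = Complex.exp (2 * (t 0 : ℂ) * Complex.I)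
        * ((x : ℂ) - 2 * δ) := by
      have := hE1.symm
      push_cast at this
      exact this
    have hE2' : -((y : ℂ) - δ) = Complex.exp ((t 2 : ℂ) * Complex.I)
        * ((y : ℂ) + δ) := by
      have := hE2.symm
      push_cast at this
      exact this
    have hpow : ((y : ℂ) - δ) ^ (2 * y * (3 * q.den)) = (-((y : ℂ) - δ)) ^ (2 * y * (3 * q.den)) := by
      rw [Even.neg_pow]
      exact ⟨y * (3 * q.den), by ring⟩
    rw [hpow, hE1', hE2', mul_pow, mul_pow]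
    linear_combination ((x : ℂ) - 2 * δ) ^ (x * (3 * q.den))
      * ((y : ℂ) + δ) ^ (2 * y * (3 * q.den)) * hone

end Pool.Agent.helper37.RO
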