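import Mathlib

/-!
RO-02 (Trf).  Transfer of an identity from `ℤ[√D] ⊆ ℂ` to other rings, and square roots in `ℤ_p`.

PROOF of `transfer`.  `Zsqrtd.lift` gives ring homomorphisms `f : ℤ√D →+* ℂ` (`√D ↦ δ`) and
`g : ℤ√D →+* R` (`√D ↦ ρ`).  `f` is injective (`Zsqrtd.lift_injective`: `D < 0` is not a square).  The
hypothesis is `f X = f Y` for `X = ⟨x1, y1⟩ ^ A * ⟨x2, y2⟩ ^ B`, `Y = ⟨x1, -y1⟩ ^ A * ⟨x2, -y2⟩ ^ B`, so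
`X = Y`; apply `g`.
PROOF of `sqrt_odd`.  Hensel's lemma (`hensels_lemma`) for `F = X ^ 2 - C D` at `c`: `‖F c‖ < 1` as
`p ∣ c² - D`, and `‖F' c‖ = ‖2 c‖ = 1` because `p` is odd and does not divide `c`.  The root `ρ` satisfies
`‖ρ - c‖ < ‖F' c‖ = 1`.
PROOF of `sqrt_two`.  Hensel's lemma for `F = X ^ 2 - C D` at `1`: `‖F 1‖ = ‖1 - D‖ ≤ 1/8 < ‖2‖ ^ 2`.
-/

namespace Pool.Agent.helper37.RO

theorem transfer {D : ℤ} (hD : D < 0) {R : Type*} [CommRing R] (ρ : R) (hρ : ρ * ρ = (D : R))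
    (δ : ℂ) (hδ : δ * δ = (D : ℂ)) (x1 y1 x2 y2 : ℤ) (A B : ℕ)
    (h : ((x1 : ℂ) + y1 * δ) ^ A * ((x2 : ℂ) + y2 * δ) ^ B
      = ((x1 : ℂ) - y1 * δ) ^ A * ((x2 : ℂ) - y2 * δ) ^ B) :
    ((x1 : R) + y1 * ρ) ^ A * ((x2 : R) + y2 * ρ) ^ B
      = ((x1 : R) - y1 * ρ) ^ A * ((x2 : R) - y2 * ρ) ^ B := by
  have hinj := Zsqrtd.lift_injective (⟨δ, hδ⟩ : { r : ℂ // r * r = (D : ℂ) })
    (fun n => ne_of_lt (lt_of_lt_of_le hD (mul_self_nonneg n)))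
  have hXY : (⟨x1, y1⟩ : ℤ√D) ^ A * (⟨x2, y2⟩ : ℤ√D) ^ B =
      (⟨x1, -y1⟩ : ℤ√D) ^ A * (⟨x2, -y2⟩ : ℤ√D) ^ B := by
    apply hinj
    simp only [map_mul, map_pow, Zsqrtd.lift_apply_apply]
    push_cast
    simpa only [neg_mul, sub_eq_add_neg] using h
  have h2 := congrArg (Zsqrtd.lift (⟨ρ, hρ⟩ : { r : R // r * r = (D : R) })) hXY
  simp only [map_mul, map_pow, Zsqrtd.lift_apply_apply] at h2
  push_cast at h2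
  simpa only [neg_mul, sub_eq_add_neg] using h2

open Polynomial in
theorem sqrt_odd {p : ℕ} [Fact p.Prime] (hp : p ≠ 2) {D c : ℤ} (h : (p : ℤ) ∣ c ^ 2 - D)
    (hc : ¬ (p : ℤ) ∣ c) : ∃ ρ : ℤ_[p], ρ * ρ = (D : ℤ_[p]) ∧ ‖ρ - (c : ℤ_[p])‖ < 1 := by
  have hpp : p.Prime := Fact.out
  have e1 : aeval (c : ℤ_[p]) (X ^ 2 - C D : ℤ[X]) = ((c ^ 2 - D : ℤ) : ℤ_[p]) := by
    simp
  have e2 : aeval (c : ℤ_[p]) (derivative (X ^ 2 - C D : ℤ[X])) = ((2 * c : ℤ) : ℤ_[p]) := by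
    have e0 : aeval (c : ℤ_[p]) (2 : ℤ[X]) = 2 := map_ofNat _ 2
    simp [e0]
  have n1 : ‖((c ^ 2 - D : ℤ) : ℤ_[p])‖ < 1 := (PadicInt.norm_int_lt_one_iff_dvd _).2 h
  have n2 : ‖((2 * c : ℤ) : ℤ_[p])‖ = 1 := by
    refine le_antisymm (PadicInt.norm_le_one _) (not_lt.1 fun hlt => ?_)
    rw [PadicInt.norm_int_lt_one_iff_dvd] at hlt
    rcases Int.Prime.dvd_mul' hpp hlt with h3 | h3
    · have h4 : p ∣ 2 := by exact_mod_cast h3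
      exact hp ((Nat.prime_dvd_prime_iff_eq hpp Nat.prime_two).1 h4)
    · exact hc h3
  obtain ⟨z, hz1, hz2, -, -⟩ := hensels_lemma (p := p) (F := (X ^ 2 - C D : ℤ[X]))
    (a := (c : ℤ_[p])) (by rw [e1, e2, n2]; simpa using n1)
  refine ⟨z, ?_, ?_⟩
  · have h5 : z ^ 2 - (D : ℤ_[p]) = 0 := by simpa using hz1
    rw [← sq]
    exact sub_eq_zero.1 h5
  · rwa [e2, n2] at hz2

open Polynomial in
theorem sqrt_two {D : ℤ} (h : D % 8 = 1) : ∃ ρ : ℤ_[2], ρ * ρ = (D : ℤ_[2]) := by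
  have e1 : aeval (1 : ℤ_[2]) (X ^ 2 - C D : ℤ[X]) = ((1 - D : ℤ) : ℤ_[2]) := by
    simp
  have e2 : aeval (1 : ℤ_[2]) (derivative (X ^ 2 - C D : ℤ[X])) = (2 : ℤ_[2]) := by
    have e0 : aeval (1 : ℤ_[2]) (2 : ℤ[X]) = 2 := map_ofNat _ 2
    simp [e0]
  have n1 : ‖((1 - D : ℤ) : ℤ_[2])‖ ≤ (2 : ℝ) ^ (-(3 : ℕ) : ℤ) := by
    have := (PadicInt.norm_int_le_pow_iff_dvd (p := 2) (k := 1 - D) (n := 3)).2
      (by norm_num; omega)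
    simpa using this
  have n2 : ‖(2 : ℤ_[2])‖ = 1 / 2 := by
    have := PadicInt.norm_p (p := 2)
    simpa using this
  obtain ⟨z, hz1, -, -, -⟩ := hensels_lemma (p := 2) (F := (X ^ 2 - C D : ℤ[X]))
    (a := (1 : ℤ_[2])) (by
      rw [e1, e2, n2]
      refine n1.trans_lt ?_
      norm_num)
  refine ⟨z, ?_⟩
  have h5 : z ^ 2 - (D : ℤ_[2]) = 0 := by simpa using hz1
  rw [← sq]
  exact sub_eq_zero.1 h5

end Pool.Agent.helper37.RO
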